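import Mathlib

/-!
General algebraic facts: polynomial maps with few parameters are not dominant, polynomial maps
with surjective differential at a point are dominant and their image contains a nonempty
principal open set.
-/

namespace Pool.Agent.H42.GR

open MvPolynomial Cardinal

/-- Fewer parameters than coordinates: the image lies in a hypersurface. -/
theorem exists_relation {I B : Type} [Fintype I] [Fintype B]
    (h : Fintype.card B < Fintype.card I) (Ψ : I → MvPolynomial B ℂ) :
    ∃ P : MvPolynomial I ℂ, P ≠ 0 ∧ aeval Ψ P = 0 := by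
  by_contra hcon
  push Not at hcon
  have hind : AlgebraicIndependent ℂ Ψ := by
    rw [algebraicIndependent_iff]
    intro p hp
    by_contra h0
    exact hcon p h0 hp
  have h1 := hind.cardinalMk_le_trdeg
  rw [MvPolynomial.trdeg_of_isDomain] at h1
  simp only [mk_fintype, lift_natCast, Nat.cast_le] at h1
  omega

/-- The chain rule. -/
theorem pderiv_aeval {I B : Type} [Fintype I] [DecidableEq I]
    (Φ : I → MvPolynomial B ℂ) (P : MvPolynomial I ℂ) (b : B) :
    pderiv b (aeval Φ P) = ∑ k, aeval Φ (pderiv k P) * pderiv b (Φ k) := by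
  induction P using MvPolynomial.induction_on with
  | C a =>
    have h1 : (aeval Φ) (C a : MvPolynomial I ℂ) = C a := by
      rw [aeval_C]; rfl
    rw [h1, pderiv_C]
    simp only [pderiv_C, map_zero, zero_mul, Finset.sum_const_zero]
  | add P Q hP hQ =>
    rw [map_add, map_add, hP, hQ, ← Finset.sum_add_distrib]
    refine Finset.sum_congr rfl fun k _ => ?_
    rw [map_add, map_add, add_mul]
  | mul_X P i hP =>
    rw [map_mul, aeval_X, pderiv_mul, hP]
    have e2 : ∀ k, aeval Φ (pderiv k (P * X i)) * pderiv b (Φ k) =
        (aeval Φ (pderiv k P) * pderiv b (Φ k)) * Φ i +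
          (if i = k then aeval Φ P * pderiv b (Φ k) else 0) := by
      intro k
      rw [pderiv_mul, map_add, map_mul, map_mul, aeval_X]
      by_cases hk : i = k
      · subst hk
        rw [pderiv_X_self, map_one, if_pos rfl]
        ring
      · rw [pderiv_X_of_ne hk, map_zero, if_neg hk]
        ring
    rw [Finset.sum_congr rfl fun k _ => e2 k, Finset.sum_add_distrib, Finset.sum_ite_eq,
      if_pos (Finset.mem_univ _), Finset.sum_mul]

/-- Surjective differential at a point implies dominance. -/
theorem dominant_of_differential {I B : Type} [Fintype I] [Fintype B] [DecidableEq I]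
    (Φ : I → MvPolynomial B ℂ) (p : B → ℂ)
    (hs : ∀ i : I, ∃ q : B → ℂ, ∀ k : I,
      ∑ b, q b * eval p (pderiv b (Φ k)) = if k = i then 1 else 0) :
    ∀ P : MvPolynomial I ℂ, aeval Φ P = 0 → P = 0 := by
  classical
  choose R hR using hs
  set J : Matrix I I (MvPolynomial B ℂ) :=
    Matrix.of fun k i => ∑ b, C (R i b) * pderiv b (Φ k) with hJ
  have hdet : J.det ≠ 0 := by
    intro h0
    have h1 : eval p J.det = 0 := by rw [h0]; simp
    rw [RingHom.map_det] at h1
    have h2 : (eval p).mapMatrix J = (1 : Matrix I I ℂ) := by
      ext k i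
      simp only [hJ, RingHom.mapMatrix_apply, Matrix.map_apply, Matrix.of_apply, map_sum, map_mul,
        eval_C]
      rw [hR i k, Matrix.one_apply]
    rw [h2, Matrix.det_one] at h1
    exact one_ne_zero h1
  have key : ∀ P : MvPolynomial I ℂ, aeval Φ P = 0 → ∀ k, aeval Φ (pderiv k P) = 0 := by
    intro P h0
    have hv : Matrix.vecMul (fun k => aeval Φ (pderiv k P)) J = 0 := by
      funext i
      simp only [Matrix.vecMul, dotProduct, hJ, Matrix.of_apply, Pi.zero_apply]
      have : ∑ k, (aeval Φ) ((pderiv k) P) * ∑ b, C (R i b) * (pderiv b) (Φ k) =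
          ∑ b, C (R i b) * ∑ k, (aeval Φ) ((pderiv k) P) * (pderiv b) (Φ k) := by
        simp only [Finset.mul_sum]
        rw [Finset.sum_comm]
        refine Finset.sum_congr rfl fun b _ => Finset.sum_congr rfl fun k _ => ?_
        ring
      rw [this]
      refine Finset.sum_eq_zero fun b _ => ?_
      rw [← pderiv_aeval, h0, map_zero, mul_zero]
    have h3 := Matrix.eq_zero_of_vecMul_eq_zero hdet hv
    intro k
    exact congrFun h3 k
  have main : ∀ (N : ℕ) (P : MvPolynomial I ℂ), (∀ m, coeff m P ≠ 0 → m.degree ≤ N) →
      aeval Φ P = 0 → P = 0 := by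
    intro N
    induction N with
    | zero =>
      intro P hP h0
      have h1 : P = C (coeff 0 P) := by
        ext m
        rw [coeff_C]
        split_ifs with h
        · rw [h]
        · by_contra hm
          have := hP m hm
          rw [Nat.le_zero, Finsupp.degree_eq_zero_iff] at this
          exact h this.symm
      rw [h1] at h0 ⊢
      rw [aeval_C, MvPolynomial.algebraMap_eq, C_eq_zero] at h0
      rw [h0, C_0]
    | succ N ih =>
      intro P hP h0
      have hd : ∀ k, pderiv k P = 0 := by
        intro k
        refine ih _ ?_ (key P h0 k)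
        intro m hm
        rw [coeff_pderiv] at hm
        have := hP _ (left_ne_zero_of_mul hm)
        rw [map_add, Finsupp.degree_single] at this
        omega
      have h1 : P = C (coeff 0 P) := by
        ext m
        rw [coeff_C]
        split_ifs with h
        · rw [h]
        · have : ∃ k, m k ≠ 0 := by
            by_contra hall
            push Not at hall
            apply h
            ext k
            simp [hall k]
          obtain ⟨k, hk⟩ := this
          have h2 : coeff (m - Finsupp.single k 1) (pderiv k P) = 0 := by rw [hd k]; simp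
          rw [coeff_pderiv] at h2
          have h3 : m - Finsupp.single k 1 + Finsupp.single k 1 = m := by
            apply tsub_add_cancel_of_le
            rw [Finsupp.single_le_iff]
            omega
          rw [h3] at h2
          rcases mul_eq_zero.mp h2 with h4 | h4
          · exact h4
          · exfalso
            exact (Nat.cast_add_one_ne_zero _) h4
      rw [h1] at h0 ⊢
      rw [aeval_C, MvPolynomial.algebraMap_eq, C_eq_zero] at h0
      rw [h0, C_0]
  intro P hP
  refine main P.totalDegree P ?_ hP
  intro m hm
  have := MvPolynomial.le_totalDegree (MvPolynomial.mem_support_iff.mpr hm)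
  rw [Finsupp.degree_eq_sum] 
  refine le_trans (le_of_eq ?_) this
  rw [Finsupp.sum_fintype _ _ (fun _ => rfl)]

/-- The directional derivative of a polynomial along a line on which the value is affine. -/
theorem deriv_of_affine {B : Type} [Fintype B] (F : MvPolynomial B ℂ) (p q : B → ℂ) (a : ℂ)
    (h : ∀ t : ℂ, eval (fun b => p b + t * q b) F = eval p F + t * a) :
    ∑ b, q b * eval p (pderiv b F) = a := by
  classical
  -- the one-variable polynomial
  have key : ∀ G : MvPolynomial B ℂ,
      Polynomial.eval 0 (Polynomial.derivative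
        (aeval (fun b => Polynomial.C (p b) + Polynomial.X * Polynomial.C (q b)) G)) =
      ∑ b, q b * eval p (pderiv b G) := by
    intro G
    have ev0 : ∀ G : MvPolynomial B ℂ, Polynomial.eval 0
        (aeval (fun b => Polynomial.C (p b) + Polynomial.X * Polynomial.C (q b)) G) =
        eval p G := by
      intro G
      induction G using MvPolynomial.induction_on with
      | C a => simp [MvPolynomial.algebraMap_eq]
      | add P Q hP hQ => rw [map_add, Polynomial.eval_add, hP, hQ, map_add]
      | mul_X P i hP => rw [map_mul, Polynomial.eval_mul, hP, map_mul, aeval_X, eval_X]; simp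
    induction G using MvPolynomial.induction_on with
    | C a => simp
    | add P Q hP hQ =>
      rw [map_add, map_add, Polynomial.eval_add, hP, hQ, ← Finset.sum_add_distrib]
      refine Finset.sum_congr rfl fun b _ => ?_
      rw [map_add, map_add, mul_add]
    | mul_X P i hP =>
      rw [map_mul, Polynomial.derivative_mul, Polynomial.eval_add, Polynomial.eval_mul,
        Polynomial.eval_mul, hP, aeval_X]
      have e2 : ∀ b, q b * eval p (pderiv b (P * X i)) =
          (q b * eval p (pderiv b P)) * p i + (if i = b then eval p P * q b else 0) := by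
        intro b
        rw [pderiv_mul, map_add, map_mul, map_mul, eval_X]
        by_cases hb : i = b
        · subst hb
          rw [pderiv_X_self, map_one, if_pos rfl]
          ring
        · rw [pderiv_X_of_ne hb, map_zero, if_neg hb]
          ring
      rw [Finset.sum_congr rfl fun b _ => e2 b, Finset.sum_add_distrib, Finset.sum_ite_eq,
        if_pos (Finset.mem_univ _), ← Finset.sum_mul]
      have e3 : Polynomial.eval 0 (Polynomial.derivative
          (Polynomial.C (p i) + Polynomial.X * Polynomial.C (q i))) = q i := by simp
      have e4 : Polynomial.eval 0 (Polynomial.C (p i) + Polynomial.X * Polynomial.C (q i)) =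
          p i := by simp
      rw [e3, e4, ev0]
  rw [← key F]
  have h2 : (aeval (fun b => Polynomial.C (p b) + Polynomial.X * Polynomial.C (q b)) F :
      Polynomial ℂ) = Polynomial.C (eval p F) + Polynomial.X * Polynomial.C a := by
    apply Polynomial.funext
    intro t
    have h3 := h t
    have h4 : ∀ G : MvPolynomial B ℂ, Polynomial.eval t
        (aeval (fun b => Polynomial.C (p b) + Polynomial.X * Polynomial.C (q b)) G) =
        eval (fun b => p b + t * q b) G := by
      intro G
      induction G using MvPolynomial.induction_on with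
      | C a => simp [MvPolynomial.algebraMap_eq]
      | add P Q hP hQ => rw [map_add, Polynomial.eval_add, hP, hQ, map_add]
      | mul_X P i hP =>
        rw [map_mul, Polynomial.eval_mul, hP, map_mul, aeval_X, eval_X, Polynomial.eval_add,
          Polynomial.eval_mul, Polynomial.eval_C, Polynomial.eval_C, Polynomial.eval_X]
    rw [h4, h3, Polynomial.eval_add, Polynomial.eval_mul, Polynomial.eval_C, Polynomial.eval_C,
      Polynomial.eval_X]
  rw [h2]
  simp

/-- A dominant polynomial map contains a nonempty principal open set in its image. -/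
theorem exists_open_in_image {I B : Type} [Fintype I] [Fintype B]
    (Φ : I → MvPolynomial B ℂ) (hdom : ∀ P : MvPolynomial I ℂ, aeval Φ P = 0 → P = 0) :
    ∃ f : MvPolynomial I ℂ, f ≠ 0 ∧ ∀ y : I → ℂ, eval y f ≠ 0 →
      ∃ x : B → ℂ, ∀ i, eval x (Φ i) = y i := by
  classical
  set φ : MvPolynomial I ℂ →+* MvPolynomial B ℂ := (aeval Φ : MvPolynomial I ℂ →ₐ[ℂ] _).toRingHom
    with hφ
  have hinj : Function.Injective φ := by
    rw [injective_iff_map_eq_zero]
    intro P hP
    exact hdom P hP
  have hfp : φ.FinitePresentation := by
    have h1 : (aeval Φ : MvPolynomial I ℂ →ₐ[ℂ] MvPolynomial B ℂ).FiniteType := by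
      apply AlgHom.FiniteType.of_comp_finiteType (f := Algebra.ofId ℂ (MvPolynomial I ℂ))
      have : ((aeval Φ : MvPolynomial I ℂ →ₐ[ℂ] MvPolynomial B ℂ).comp
          (Algebra.ofId ℂ (MvPolynomial I ℂ))) = Algebra.ofId ℂ (MvPolynomial B ℂ) :=
        Subsingleton.elim _ _
      rw [this]
      have : (algebraMap ℂ (MvPolynomial B ℂ)).FiniteType := by
        rw [RingHom.finiteType_algebraMap]
        infer_instance
      exact this
    have h2 : φ.FiniteType := h1
    exact RingHom.FinitePresentation.of_finiteType.mp h2
  obtain ⟨S, hS⟩ := PrimeSpectrum.exists_constructibleSetData_iff.mpr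
    (PrimeSpectrum.isConstructible_range_comap hfp)
  set η : PrimeSpectrum (MvPolynomial I ℂ) := ⟨⊥, Ideal.isPrime_bot⟩ with hη
  have hmem : η ∈ Set.range (PrimeSpectrum.comap φ) := by
    refine ⟨⟨⊥, Ideal.isPrime_bot⟩, ?_⟩
    ext1
    simp only [PrimeSpectrum.comap_asIdeal, hη]
    exact Ideal.comap_bot_of_injective φ hinj
  rw [← hS] at hmem
  simp only [PrimeSpectrum.ConstructibleSetData.toSet, Set.mem_iUnion] at hmem
  obtain ⟨D, hD, hmem⟩ := hmem
  simp only [PrimeSpectrum.BasicConstructibleSetData.toSet, Set.mem_sdiff,
    PrimeSpectrum.mem_zeroLocus] at hmem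
  refine ⟨D.f, ?_, ?_⟩
  · intro h0
    apply hmem.2
    rw [h0]
    simp
  · intro y hy
    have hg : ∀ i, D.g i = 0 := by
      intro i
      have := hmem.1 ⟨i, rfl⟩
      simpa [hη] using this
    set py : PrimeSpectrum (MvPolynomial I ℂ) := ⟨RingHom.ker (eval y), RingHom.ker_isPrime _⟩
      with hpy
    have hin : py ∈ Set.range (PrimeSpectrum.comap φ) := by
      rw [← hS]
      simp only [PrimeSpectrum.ConstructibleSetData.toSet, Set.mem_iUnion]
      refine ⟨D, hD, ?_⟩
      simp only [PrimeSpectrum.BasicConstructibleSetData.toSet, Set.mem_sdiff,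
        PrimeSpectrum.mem_zeroLocus]
      constructor
      · rintro _ ⟨i, rfl⟩
        rw [hg i]
        simp
      · intro h
        apply hy
        have := h (Set.mem_singleton _)
        simpa [hpy, RingHom.mem_ker] using this
    obtain ⟨q, hq⟩ := hin
    obtain ⟨M, hM, hqM⟩ := Ideal.exists_le_maximal q.asIdeal q.isPrime.ne_top
    obtain ⟨x, hx⟩ := MvPolynomial.isMaximal_iff_eq_vanishingIdeal_singleton.mp hM
    refine ⟨x, fun i => ?_⟩
    have h5 : (X i - C (y i) : MvPolynomial I ℂ) ∈ py.asIdeal := by
      simp [hpy, RingHom.mem_ker]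
    rw [← hq] at h5
    have h6 : φ (X i - C (y i)) ∈ M := hqM h5
    rw [hx, MvPolynomial.mem_vanishingIdeal_singleton_iff] at h6
    have h7 : φ (X i - C (y i)) = Φ i - C (y i) := by
      rw [map_sub]
      congr 1
      · exact aeval_X _ _
      · exact aeval_C _ _
    rw [h7, map_sub, aeval_C] at h6
    have h8 : aeval x (Φ i) = eval x (Φ i) := by
      rw [MvPolynomial.aeval_eq_eval]
    rw [h8] at h6
    have h9 : (algebraMap ℂ ℂ) (y i) = y i := rfl
    rw [h9] at h6
    exact sub_eq_zero.mp h6

end Pool.Agent.H42.GR
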