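import Pool.Agent.H42.GR.Lower3

/-!
Membership criterion for `Sub_r`, monotonicity of the rank, the decomposition of every form into
`n + 1` elements, and the counting lemmas.
-/

namespace Pool.Agent.H42.GR

open MvPolynomial

variable {σ : Type} [Fintype σ] [DecidableEq σ]

/-- Intermediate subspaces. -/
theorem exists_between {E : Type} [AddCommGroup E] [Module ℂ E] (V₀ V₁ : Submodule ℂ E)
    [FiniteDimensional ℂ V₁] (h : V₀ ≤ V₁) (r : ℕ) (h0 : Module.finrank ℂ V₀ ≤ r)
    (h1 : r ≤ Module.finrank ℂ V₁) :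
    ∃ V' : Submodule ℂ E, V₀ ≤ V' ∧ V' ≤ V₁ ∧ Module.finrank ℂ V' = r := by
  induction r, h0 using Nat.le_induction with
  | base => exact ⟨V₀, le_rfl, h, rfl⟩
  | succ r hr ih =>
    obtain ⟨V', hV0, hV1, hVr⟩ := ih (by omega)
    have hne : V' ≠ V₁ := by
      rintro rfl
      omega
    obtain ⟨x, hx1, hx2⟩ := SetLike.exists_of_lt (lt_of_le_of_ne hV1 hne)
    have hfin' : FiniteDimensional ℂ V' := Submodule.finiteDimensional_of_le hV1
    have hle : V' ⊔ Submodule.span ℂ {x} ≤ V₁ := by
      rw [sup_le_iff, Submodule.span_singleton_le_iff_mem]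
      exact ⟨hV1, hx1⟩
    have hfin'' : FiniteDimensional ℂ ↥(V' ⊔ Submodule.span ℂ {x}) :=
      Submodule.finiteDimensional_of_le hle
    refine ⟨V' ⊔ Submodule.span ℂ {x}, hV0.trans le_sup_left, hle, ?_⟩
    have hlt : V' < V' ⊔ Submodule.span ℂ {x} := by
      refine lt_of_le_of_ne le_sup_left ?_
      intro h2
      apply hx2
      rw [h2]
      exact Submodule.mem_sup_right (Submodule.mem_span_singleton_self x)
    have h3 := Submodule.finrank_lt_finrank_of_lt hlt
    have h4 : Module.finrank ℂ ↥(V' ⊔ Submodule.span ℂ {x}) ≤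
        Module.finrank ℂ V' + Module.finrank ℂ (Submodule.span ℂ {x}) :=
      Submodule.finrank_add_le_finrank_add_finrank _ _
    have h5 : Module.finrank ℂ (Submodule.span ℂ {x}) ≤ 1 := by
      have := finrank_span_le_card (R := ℂ) ({x} : Set E)
      simpa using this
    omega

theorem homogeneousSubmodule_one_eq :
    homogeneousSubmodule σ ℂ 1 = Submodule.span ℂ (Set.range (X : σ → MvPolynomial σ ℂ)) := by
  apply le_antisymm
  · intro p hp
    have hp' : p.IsHomogeneous 1 := hp
    rw [eq_sum_mons hp']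
    refine Submodule.sum_mem _ fun μ hμ => ?_
    rw [mem_mons] at hμ
    rw [← smul_eq_C_mul]
    apply Submodule.smul_mem
    obtain ⟨i, hi⟩ := exists_single_of_degree_one hμ
    rw [← hi, Finset.prod_eq_single i]
    · rw [Finsupp.single_eq_same, pow_one]
      exact Submodule.subset_span ⟨i, rfl⟩
    · intro k _ hk
      rw [Finsupp.single_eq_of_ne hk, pow_zero]
    · simp
  · rw [Submodule.span_le]
    rintro _ ⟨i, rfl⟩
    exact isHomogeneous_X _ _

instance : FiniteDimensional ℂ (homogeneousSubmodule σ ℂ 1) := by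
  rw [homogeneousSubmodule_one_eq]
  exact FiniteDimensional.span_of_finite ℂ (Set.finite_range _)

theorem finrank_linear : Module.finrank ℂ (homogeneousSubmodule σ ℂ 1) = Fintype.card σ := by
  rw [homogeneousSubmodule_one_eq]
  rw [finrank_span_eq_card]
  exact (MvPolynomial.linearIndependent_X σ ℂ)

theorem inSub_of_aeval {s n r : ℕ} (b : σ → Option (Fin s)) (j : Fin s)
    (hb : Fintype.card {l : σ // b l ≠ some j} ≤ r) (hr : r ≤ Fintype.card σ)
    (v : σ → MvPolynomial σ ℂ) (hv : ∀ l, (v l).IsHomogeneous 1)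
    (hv0 : ∀ l, b l = some j → v l = 0) (Q : MvPolynomial σ ℂ) (hQ : Q.IsHomogeneous n) :
    InSub σ n r (aeval v Q) := by
  classical
  set V₀ : Submodule ℂ (MvPolynomial σ ℂ) :=
    Submodule.span ℂ (Set.range fun l : {l : σ // b l ≠ some j} => v l.1) with hV₀
  have h01 : V₀ ≤ homogeneousSubmodule σ ℂ 1 := by
    rw [hV₀, Submodule.span_le]
    rintro _ ⟨l, rfl⟩
    exact hv l.1
  have hfr : Module.finrank ℂ V₀ ≤ r := by
    refine le_trans ?_ hb
    exact finrank_range_le_card _
  obtain ⟨V', h1, h2, h3⟩ := exists_between V₀ (homogeneousSubmodule σ ℂ 1) h01 r hfr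
    (by rw [finrank_linear]; exact hr)
  refine ⟨V', h2, h3, ?_⟩
  have hvV : ∀ l, v l ∈ V' := by
    intro l
    by_cases hl : b l = some j
    · rw [hv0 l hl]
      exact Submodule.zero_mem _
    · exact h1 (Submodule.subset_span ⟨⟨l, hl⟩, rfl⟩)
  rw [eq_sum_mons hQ, map_sum]
  refine Submodule.sum_mem _ fun μ hμ => ?_
  rw [map_mul, aeval_C, algebraMap_eq, ← smul_eq_C_mul]
  apply Submodule.smul_mem
  rw [map_prod]
  have hprod : ∀ S : Finset σ, ∏ i ∈ S, aeval v ((X i : MvPolynomial σ ℂ) ^ μ i) ∈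
      V' ^ (∑ i ∈ S, μ i) := by
    intro S
    induction S using Finset.induction_on with
    | empty =>
      rw [Finset.prod_empty, Finset.sum_empty, pow_zero]
      exact Submodule.one_le.mp le_rfl
    | insert i S hi ih =>
      rw [Finset.prod_insert hi, Finset.sum_insert hi, pow_add]
      refine Submodule.mul_mem_mul ?_ ih
      rw [map_pow, aeval_X]
      exact Submodule.pow_mem_pow V' (hvV i) _
  have := hprod Finset.univ
  rw [mem_mons, Finsupp.degree_eq_sum] at hμ
  rwa [hμ] at this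

/-- Monotonicity in the dimension. -/
theorem inSub_mono {n r r' : ℕ} (hrr : r ≤ r') (hr' : r' ≤ Fintype.card σ)
    {T : MvPolynomial σ ℂ} (h : InSub σ n r T) : InSub σ n r' T := by
  obtain ⟨V', h1, h2, h3⟩ := h
  obtain ⟨V'', h4, h5, h6⟩ := exists_between V' (homogeneousSubmodule σ ℂ 1) h1 r' (by omega)
    (by rw [finrank_linear]; exact hr')
  exact ⟨V'', h5, h6, pow_le_pow_left' h4 n h3⟩

/-- Monotonicity in the number of summands. -/
theorem rankLE_mono {n r s s' : ℕ} (hss : s ≤ s') (hr : r ≤ Fintype.card σ)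
    {T : MvPolynomial σ ℂ} (h : RankLE σ n r s T) : RankLE σ n r s' T := by
  obtain ⟨t, ht, rfl⟩ := h
  have h0 : InSub σ n r (0 : MvPolynomial σ ℂ) := by
    obtain ⟨V', _, h2, h3⟩ := exists_between ⊥ (homogeneousSubmodule σ ℂ 1) bot_le r (by simp)
      (by rw [finrank_linear]; exact hr)
    exact ⟨V', h2, h3, Submodule.zero_mem _⟩
  obtain ⟨d, rfl⟩ := Nat.exists_eq_add_of_le hss
  refine ⟨Fin.append t (fun _ => 0), fun j => ?_, ?_⟩
  · refine Fin.addCases (fun i => ?_) (fun i => ?_) j
    · rw [Fin.append_left]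
      exact ht i
    · rw [Fin.append_right]
      exact h0
  · rw [Fin.sum_univ_add]
    simp

theorem containsOpen_mono {n : ℕ} {S S' : Set (MvPolynomial σ ℂ)} (h : S ⊆ S')
    (hS : ContainsOpen σ n S) : ContainsOpen σ n S' := by
  obtain ⟨P, hP1, hP2⟩ := hS
  exact ⟨P, hP1, fun T hT hT' => h (hP2 T hT hT')⟩

/-- With `n + 1` blocks every form of degree `n` is a sum of `n + 1` forms, the `j`-th of them not
involving the `j`-th block. -/
theorem rankLE_all {n r : ℕ} (b : σ → Option (Fin (n + 1)))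
    (hb : ∀ j, Fintype.card {l : σ // b l ≠ some j} ≤ r) (hr : r ≤ Fintype.card σ)
    (T : MvPolynomial σ ℂ) (hT : T.IsHomogeneous n) : RankLE σ n r (n + 1) T := by
  classical
  -- every exponent vector misses a block
  have hmiss : ∀ μ : σ →₀ ℕ, μ ∈ mons σ n → ∃ j, ∀ i, b i = some j → μ i = 0 := by
    intro μ hμ
    by_contra hcon
    push Not at hcon
    choose i hi hμi using hcon
    have hinj : Function.Injective i := by
      intro j j' hjj
      have h1 := hi j
      rw [hjj, hi j'] at h1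
      exact (Option.some.inj h1).symm
    have h1 : n + 1 ≤ ∑ k, μ k := by
      calc n + 1 = ∑ _j : Fin (n + 1), 1 := by simp
        _ ≤ ∑ j, μ (i j) := Finset.sum_le_sum fun j _ => Nat.one_le_iff_ne_zero.mpr (hμi j)
        _ = ∑ k ∈ Finset.univ.image i, μ k := by
            rw [Finset.sum_image]
            intro a _ a' _ h
            exact hinj h
        _ ≤ ∑ k, μ k := Finset.sum_le_sum_of_subset (Finset.subset_univ _)
    rw [mem_mons, Finsupp.degree_eq_sum] at hμ
    omega
  choose! j hj using hmiss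
  have hsplit : T = ∑ k : Fin (n + 1), ∑ μ ∈ (mons σ n).filter (fun μ => j μ = k),
      C (coeff μ T) * ∏ i, X i ^ μ i := by
    conv_lhs => rw [eq_sum_mons hT]
    rw [Finset.sum_fiberwise]
  refine ⟨fun k => ∑ μ ∈ (mons σ n).filter (fun μ => j μ = k),
      C (coeff μ T) * ∏ i, X i ^ μ i, fun k => ?_, hsplit⟩
  set v : σ → MvPolynomial σ ℂ := fun l => if b l = some k then 0 else X l with hv
  have hfix : (∑ μ ∈ (mons σ n).filter (fun μ => j μ = k),
      C (coeff μ T) * ∏ i, (X i : MvPolynomial σ ℂ) ^ μ i) =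
      aeval v (∑ μ ∈ (mons σ n).filter (fun μ => j μ = k),
        C (coeff μ T) * ∏ i, (X i : MvPolynomial σ ℂ) ^ μ i) := by
    rw [map_sum]
    refine Finset.sum_congr rfl fun μ hμ => ?_
    rw [map_mul, aeval_C, algebraMap_eq, map_prod]
    congr 1
    refine Finset.prod_congr rfl fun i _ => ?_
    rw [map_pow, aeval_X]
    simp only [hv]
    split_ifs with hi
    · rw [Finset.mem_filter] at hμ
      have h1 := hj μ hμ.1 i (by rw [hμ.2]; exact hi)
      rw [h1, pow_zero, pow_zero]
    · rfl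
  change InSub σ n r (∑ μ ∈ (mons σ n).filter (fun μ => j μ = k),
      C (coeff μ T) * ∏ i, (X i : MvPolynomial σ ℂ) ^ μ i)
  rw [hfix]
  refine inSub_of_aeval b k (hb k) hr v ?_ ?_ _ ?_
  · intro l
    simp only [hv]
    split_ifs
    · exact isHomogeneous_zero _ _ _
    · exact isHomogeneous_X _ _
  · intro l hl
    simp only [hv]
    rw [if_pos hl]
  · apply IsHomogeneous.sum
    intro μ hμ
    rw [Finset.mem_filter, mem_mons, Finsupp.degree_eq_sum] at hμ
    have h2 : (∏ i, (X i : MvPolynomial σ ℂ) ^ μ i).IsHomogeneous (∑ i, μ i) := by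
      apply IsHomogeneous.prod
      intro i _
      exact isHomogeneous_X_pow _ _
    have h3 := (isHomogeneous_C σ (coeff μ T)).mul h2
    rw [zero_add, hμ.1] at h3
    exact h3

end Pool.Agent.H42.GR
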