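import Pool.Agent.H42.GR.Dom

/-!
The construction for `s = n`: combinatorial data and a Vandermonde argument.
-/

namespace Pool.Agent.H42.GR

open MvPolynomial

variable {σ : Type} [Fintype σ] [DecidableEq σ]

/-- The product of one variable in every block except the `j`-th one. -/
noncomputable def pc {n c : ℕ} (e : Fin n × Fin c ↪ σ) (j : Fin n) (ψ : Fin n → Fin c) :
    MvPolynomial σ ℂ :=
  ∏ i ∈ Finset.univ.erase j, X (e (i, ψ i))

/-- The product of one variable in every block. -/
noncomputable def cell {n c : ℕ} (e : Fin n × Fin c ↪ σ) (φ : Fin n → Fin c) :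
    MvPolynomial σ ℂ :=
  ∏ i, X (e (i, φ i))

theorem cell_eq {n c : ℕ} (e : Fin n × Fin c ↪ σ) (j : Fin n) (φ : Fin n → Fin c) :
    X (e (j, φ j)) * pc e j φ = cell e φ := by
  unfold pc cell
  rw [Finset.mul_prod_erase Finset.univ (fun i => (X (e (i, φ i)) : MvPolynomial σ ℂ))
    (Finset.mem_univ j)]

theorem pc_update {n c : ℕ} (e : Fin n × Fin c ↪ σ) (j : Fin n) (ψ : Fin n → Fin c)
    (a : Fin c) : pc e j (Function.update ψ j a) = pc e j ψ := by
  unfold pc
  refine Finset.prod_congr rfl fun i hi => ?_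
  rw [Function.update_of_ne (Finset.ne_of_mem_erase hi)]

theorem pc_otherBlocks {n c : ℕ} (e : Fin n × Fin c ↪ σ) (j : Fin n) (ψ : Fin n → Fin c) :
    OtherBlocks (blk e) j (pc e j ψ) := by
  unfold OtherBlocks pc
  refine Subalgebra.prod_mem _ fun i hi => ?_
  rw [X_mem_supported]
  have h1 := blk_e e i (ψ i)
  refine ⟨by rw [h1]; simp, ?_⟩
  rw [h1]
  intro h2
  exact (Finset.ne_of_mem_erase hi) (Option.some.inj h2)

theorem pc_isHomogeneous {N c : ℕ} (e : Fin (N + 1) × Fin c ↪ σ) (j : Fin (N + 1))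
    (ψ : Fin (N + 1) → Fin c) : (pc e j ψ).IsHomogeneous N := by
  unfold pc
  have h := IsHomogeneous.prod (Finset.univ.erase j)
    (fun i => (X (e (i, ψ i)) : MvPolynomial σ ℂ)) (fun _ => 1)
    (fun i _ => isHomogeneous_X ℂ _)
  have h2 : ∑ _i ∈ (Finset.univ.erase j : Finset (Fin (N + 1))), 1 = N := by
    rw [Finset.sum_const, Finset.card_erase_of_mem (Finset.mem_univ j), Finset.card_univ,
      Fintype.card_fin]
    simp
  rwa [h2] at h

theorem monomial_base {n c : ℕ} (e : Fin n × Fin c ↪ σ) (φ : Fin n → Fin c) :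
    monomial (base e φ) (1 : ℂ) = cell e φ := by
  unfold base cell
  rw [monomial_sum_one]
  rfl

/-- A monomial of degree `n` that involves all `n` blocks is a cell. -/
theorem eq_base_of_meets {n c : ℕ} (e : Fin n × Fin c ↪ σ) {μ : σ →₀ ℕ} (hμ : μ ∈ mons σ n)
    (hm : Meets (blk e) μ) : ∃ φ, μ = base e φ := by
  classical
  have h1 : ∀ j : Fin n, ∃ a : Fin c, μ (e (j, a)) ≠ 0 := by
    intro j
    obtain ⟨i, hi, hi'⟩ := hm j
    obtain ⟨a, ha⟩ := (blk_eq_some e).mp hi
    exact ⟨a, by rw [ha]; exact hi'⟩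
  choose φ hφ using h1
  refine ⟨φ, ?_⟩
  have hle : base e φ ≤ μ := by
    intro i
    by_cases hi : ∃ p, e p = i
    · obtain ⟨⟨j, a⟩, rfl⟩ := hi
      rw [base_e]
      split_ifs with h
      · subst h
        exact Nat.one_le_iff_ne_zero.mpr (hφ j)
      · exact Nat.zero_le _
    · have : base e φ i = 0 := by
        unfold base
        rw [Finsupp.finsetSum_apply]
        refine Finset.sum_eq_zero fun j _ => ?_
        rw [Finsupp.single_apply, if_neg]
        intro h
        exact hi ⟨_, h⟩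
      rw [this]
      exact Nat.zero_le _
  obtain ⟨δ, hδ⟩ := le_iff_exists_add.mp hle
  have h2 : μ.degree = (base e φ).degree + δ.degree := by
    rw [hδ, map_add]
  rw [mem_mons.mp hμ, base_degree] at h2
  have h3 : δ = 0 := by
    rw [← Finsupp.degree_eq_zero_iff]
    omega
  rw [hδ, h3, add_zero]

/-- The abstract form: a subspace that contains enough products contains all cells. -/
theorem cells_mem {N c f : ℕ} (hc : 0 < c) (e : Fin (N + 1) × Fin c ↪ σ)
    (D : Submodule ℂ (MvPolynomial σ ℂ)) (F : Finset σ)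
    (w : Fin (N + 1) → σ → MvPolynomial σ ℂ)
    (hD : ∀ j, ∀ z ∈ F, ∀ k₀, X k₀ * w j z ∈ D)
    -- direction `0`
    (t : (Fin (N + 1) → Fin c) → ℂ) (ht : Function.Injective t)
    (hw0 : ∀ b < f, ∃ z ∈ F, w 0 z =
      ∑ ψ ∈ Finset.univ.filter (fun ψ : Fin (N + 1) → Fin c => ψ 0 = ⟨0, hc⟩),
        C (t ψ ^ b) * pc e 0 ψ)
    -- the other directions
    (lev : Fin c → Fin (N + 1)) (hlev : ∀ x, lev x ≠ 0)
    (S : Fin (N + 1) → Finset (Fin (N + 1) → Fin c))
    (hwj : ∀ j ≠ 0, ∀ ψ : Fin (N + 1) → Fin c, ψ j = ⟨0, hc⟩ → lev (ψ 0) = j →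
      Function.update ψ 0 ⟨0, hc⟩ ∈ S j → ∃ z ∈ F, w j z = pc e j ψ)
    (hbad : ∀ x : Fin c, (Finset.univ.filter (fun ψ : Fin (N + 1) → Fin c => ψ 0 = ⟨0, hc⟩ ∧
      Function.update ψ (lev x) ⟨0, hc⟩ ∉ S (lev x))).card ≤ f)
    (φ : Fin (N + 1) → Fin c) : cell e φ ∈ D := by
  classical
  set z0 : Fin c := ⟨0, hc⟩ with hz0
  -- good cells
  have good : ∀ φ : Fin (N + 1) → Fin c,
      Function.update (Function.update φ (lev (φ 0)) z0) 0 z0 ∈ S (lev (φ 0)) → cell e φ ∈ D := by
    intro φ hφ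
    set j := lev (φ 0) with hj
    have hj0 : j ≠ 0 := hlev _
    obtain ⟨z, hz, hwz⟩ := hwj j hj0 (Function.update φ j z0) (by rw [Function.update_self])
      (by rw [Function.update_of_ne (Ne.symm hj0)]) hφ
    have := hD j z hz (e (j, φ j))
    rwa [hwz, pc_update, cell_eq] at this
  -- the Vandermonde combination
  have lin : ∀ (L : Polynomial ℂ) (x : Fin c), L.natDegree < f →
      ∑ ψ ∈ Finset.univ.filter (fun ψ : Fin (N + 1) → Fin c => ψ 0 = z0),
        C (L.eval (t ψ)) * cell e (Function.update ψ 0 x) ∈ D := by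
    intro L x hL
    have h1 : ∀ b < f, ∑ ψ ∈ Finset.univ.filter (fun ψ : Fin (N + 1) → Fin c => ψ 0 = z0),
        C (t ψ ^ b) * cell e (Function.update ψ 0 x) ∈ D := by
      intro b hb
      obtain ⟨z, hz, hwz⟩ := hw0 b hb
      have := hD 0 z hz (e (0, x))
      rw [hwz, Finset.mul_sum] at this
      convert this using 1
      refine Finset.sum_congr rfl fun ψ _ => ?_
      have h2 := cell_eq e 0 (Function.update ψ 0 x)
      rw [pc_update, Function.update_self] at h2
      rw [← h2]
      ring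
    have h3 : ∑ ψ ∈ Finset.univ.filter (fun ψ : Fin (N + 1) → Fin c => ψ 0 = z0),
        C (L.eval (t ψ)) * cell e (Function.update ψ 0 x) =
        ∑ b ∈ Finset.range f, (L.coeff b) •
          ∑ ψ ∈ Finset.univ.filter (fun ψ : Fin (N + 1) → Fin c => ψ 0 = z0),
          C (t ψ ^ b) * cell e (Function.update ψ 0 x) := by
      simp only [Finset.smul_sum]
      rw [Finset.sum_comm]
      refine Finset.sum_congr rfl fun ψ _ => ?_
      rw [Polynomial.eval_eq_sum_range' hL, map_sum, Finset.sum_mul]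
      refine Finset.sum_congr rfl fun b _ => ?_
      rw [smul_eq_C_mul, C_mul, mul_assoc]
    rw [h3]
    refine Submodule.sum_mem _ fun b hb => Submodule.smul_mem _ _ (h1 b (Finset.mem_range.mp hb))
  -- all cells
  by_cases hφ : Function.update (Function.update φ (lev (φ 0)) z0) 0 z0 ∈ S (lev (φ 0))
  · exact good φ hφ
  · set x := φ 0 with hx
    set Nx := Finset.univ.filter (fun ψ : Fin (N + 1) → Fin c => ψ 0 = z0 ∧
      Function.update ψ (lev x) z0 ∉ S (lev x)) with hNx
    have hupd : ∀ ψ : Fin (N + 1) → Fin c, ψ 0 = z0 →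
        Function.update (Function.update (Function.update ψ 0 x) (lev x) z0) 0 z0 =
          Function.update ψ (lev x) z0 := by
      intro ψ hψ
      funext i
      by_cases hi0 : i = 0
      · subst hi0
        rw [Function.update_self, Function.update_of_ne (Ne.symm (hlev x)), hψ]
      · rw [Function.update_of_ne hi0]
        by_cases hij : i = lev x
        · subst hij
          rw [Function.update_self, Function.update_self]
        · rw [Function.update_of_ne hij, Function.update_of_ne hi0, Function.update_of_ne hij]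
    set ψ₀ := Function.update φ 0 z0 with hψ₀
    have hψ₀0 : ψ₀ 0 = z0 := by rw [hψ₀, Function.update_self]
    have hψ₀x : Function.update ψ₀ 0 x = φ := by
      rw [hψ₀, Function.update_idem, hx, Function.update_eq_self]
    have hψ₀N : ψ₀ ∈ Nx := by
      rw [hNx, Finset.mem_filter]
      refine ⟨Finset.mem_univ _, hψ₀0, ?_⟩
      rw [← hupd ψ₀ hψ₀0, hψ₀x]
      exact hφ
    have hdeg : (Lagrange.basis Nx t ψ₀).natDegree < f := by
      rw [Lagrange.natDegree_basis (ht.injOn) hψ₀N]
      have h4 : 0 < Nx.card := Finset.card_pos.mpr ⟨_, hψ₀N⟩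
      have h5 : Nx.card ≤ f := hbad x
      omega
    have h6 := lin (Lagrange.basis Nx t ψ₀) x hdeg
    have hsub : Nx ⊆ Finset.univ.filter (fun ψ : Fin (N + 1) → Fin c => ψ 0 = z0) := by
      intro ψ hψ
      rw [hNx, Finset.mem_filter] at hψ
      rw [Finset.mem_filter]
      exact ⟨hψ.1, hψ.2.1⟩
    rw [← Finset.sum_sdiff hsub] at h6
    have h7 : ∑ ψ ∈ Nx, C ((Lagrange.basis Nx t ψ₀).eval (t ψ)) *
        cell e (Function.update ψ 0 x) = cell e φ := by
      rw [Finset.sum_eq_single ψ₀]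
      · rw [Lagrange.eval_basis_self (ht.injOn) hψ₀N, C_1, one_mul, hψ₀x]
      · intro ψ hψ hne
        rw [Lagrange.eval_basis_of_ne (Ne.symm hne) hψ, C_0, zero_mul]
      · intro h
        exact absurd hψ₀N h
    have h8 : ∑ ψ ∈ (Finset.univ.filter (fun ψ : Fin (N + 1) → Fin c => ψ 0 = z0)) \ Nx,
        C ((Lagrange.basis Nx t ψ₀).eval (t ψ)) * cell e (Function.update ψ 0 x) ∈ D := by
      refine Submodule.sum_mem _ fun ψ hψ => ?_
      rw [← smul_eq_C_mul]
      apply Submodule.smul_mem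
      rw [Finset.mem_sdiff, Finset.mem_filter, hNx, Finset.mem_filter] at hψ
      have hψ0 := hψ.1.2
      have h9 : Function.update ψ (lev x) z0 ∈ S (lev x) := by
        by_contra h10
        exact hψ.2 ⟨Finset.mem_univ _, hψ0, h10⟩
      apply good
      rw [Function.update_self, hupd ψ hψ0]
      exact h9
    rw [h7] at h6
    have := Submodule.sub_mem _ h6 h8
    rwa [add_sub_cancel_left] at this

end Pool.Agent.H42.GR
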