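import Pool.Agent.H42.GR.Blocks

/-!
Counting: the number of parameters and the number of monomials involving all blocks.
-/

namespace Pool.Agent.H42.GR

open MvPolynomial

variable {σ : Type} [Fintype σ] [DecidableEq σ]

/-- The block function of an embedding of `s` blocks of size `c`. -/
noncomputable def blk {s c : ℕ} (e : Fin s × Fin c ↪ σ) (i : σ) : Option (Fin s) := by
  classical
  exact if h : ∃ p, e p = i then some h.choose.1 else none

theorem blk_e {s c : ℕ} (e : Fin s × Fin c ↪ σ) (j : Fin s) (a : Fin c) :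
    blk e (e (j, a)) = some j := by
  classical
  have h : ∃ p, e p = e (j, a) := ⟨_, rfl⟩
  unfold blk
  rw [dif_pos h, e.injective h.choose_spec]

theorem blk_eq_some {s c : ℕ} (e : Fin s × Fin c ↪ σ) {i : σ} {j : Fin s} :
    blk e i = some j ↔ ∃ a, e (j, a) = i := by
  classical
  constructor
  · intro h
    unfold blk at h
    split_ifs at h with h'
    obtain ⟨⟨j', a⟩, hp⟩ := h'
    have h1 := blk_e e j' a
    rw [hp] at h1
    have h2 : blk e i = some j := by
      unfold blk
      split_ifs with h''
      · exact h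
      · exact absurd ⟨_, hp⟩ h''
    rw [h1] at h2
    have := Option.some.inj h2
    subst this
    exact ⟨a, hp⟩
  · rintro ⟨a, rfl⟩
    exact blk_e e j a

theorem card_compl_blk {s c : ℕ} (e : Fin s × Fin c ↪ σ) (j : Fin s) :
    Fintype.card {l : σ // blk e l ≠ some j} = Fintype.card σ - c := by
  classical
  rw [Fintype.card_subtype_compl]
  congr 1
  have : Fintype.card (Fin c) = Fintype.card {l : σ // blk e l = some j} := by
    apply Fintype.card_congr
    refine Equiv.ofBijective (fun a => ⟨e (j, a), blk_e e j a⟩) ⟨?_, ?_⟩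
    · intro a a' h
      have := e.injective (Subtype.ext_iff.mp h)
      exact (Prod.ext_iff.mp this).2
    · rintro ⟨l, hl⟩
      obtain ⟨a, ha⟩ := (blk_eq_some e).mp hl
      exact ⟨a, Subtype.ext ha⟩
  rw [← this, Fintype.card_fin]

theorem card_pairs_le {s c : ℕ} (e : Fin s × Fin c ↪ σ) :
    Fintype.card {p : σ × σ // blk e p.2 ≠ none ∧ blk e p.1 ≠ blk e p.2} ≤
      s * c * (Fintype.card σ - c) := by
  classical
  have h1 : Fintype.card (Σ p : Fin s × Fin c, {l : σ // blk e l ≠ some p.1}) =
      s * c * (Fintype.card σ - c) := by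
    rw [Fintype.card_sigma]
    simp only [card_compl_blk]
    rw [Finset.sum_const, Finset.card_univ, Fintype.card_prod, Fintype.card_fin,
      Fintype.card_fin, smul_eq_mul]
  rw [← h1]
  refine Fintype.card_le_of_surjective
    (fun q => ⟨(q.2.1, e q.1), by
      have h2 := blk_e e q.1.1 q.1.2
      refine ⟨?_, ?_⟩
      · simp only [Prod.mk.eta] at h2
        simp [h2]
      · simp only [Prod.mk.eta] at h2
        simp only [h2]
        exact q.2.2⟩) ?_
  rintro ⟨⟨k, i⟩, h2, h3⟩
  obtain ⟨j, hj⟩ := Option.ne_none_iff_exists'.mp h2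
  obtain ⟨a, ha⟩ := (blk_eq_some e).mp hj
  refine ⟨⟨(j, a), ⟨k, ?_⟩⟩, ?_⟩
  · simp only
    rw [← hj]
    exact h3
  · simp [ha]

open Classical in
/-- The final form of the lower bound. -/
theorem not_containsOpen_of_count {s c n : ℕ} (e : Fin s × Fin c ↪ σ) (N : ℕ)
    (hN : N ≤ ((mons σ n).filter (fun μ => Meets (blk e) μ)).card)
    (hlt : s * c * (Fintype.card σ - c) < N) :
    ¬ ContainsOpen σ n {T | RankLE σ n (Fintype.card σ - c) s T} := by
  apply not_containsOpen (blk e) (fun j => card_compl_blk e j)
  have h1 := card_pairs_le e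
  have h2 := Finset.card_filter_add_card_filter_not (s := mons σ n) (fun μ => Meets (blk e) μ)
  have h3 : Fintype.card {μ : σ →₀ ℕ // μ ∈ mons σ n ∧ ¬ Meets (blk e) μ} =
      ((mons σ n).filter (fun μ => ¬ Meets (blk e) μ)).card := by
    apply Fintype.card_of_subtype
    intro μ
    rw [Finset.mem_filter]
  have h4 : Fintype.card (Par σ n (blk e)) =
      Fintype.card {p : σ × σ // blk e p.2 ≠ none ∧ blk e p.1 ≠ blk e p.2} +
      Fintype.card {μ : σ →₀ ℕ // μ ∈ mons σ n ∧ ¬ Meets (blk e) μ} := by
    rw [Fintype.card_sum]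
  rw [h4, h3]
  omega

/-- The base monomial of a choice of one variable in every block. -/
noncomputable def base {s c : ℕ} (e : Fin s × Fin c ↪ σ) (φ : Fin s → Fin c) : σ →₀ ℕ :=
  ∑ j, Finsupp.single (e (j, φ j)) 1

theorem base_e {s c : ℕ} (e : Fin s × Fin c ↪ σ) (φ : Fin s → Fin c) (j : Fin s) (a : Fin c) :
    base e φ (e (j, a)) = if φ j = a then 1 else 0 := by
  unfold base
  rw [Finsupp.finset_sum_apply]
  rw [Finset.sum_eq_single j]
  · rw [Finsupp.single_apply]
    by_cases h : φ j = a
    · rw [if_pos h, if_pos (by rw [h])]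
    · rw [if_neg h, if_neg]
      intro h'
      exact h (Prod.ext_iff.mp (e.injective h')).2
  · intro j' _ hj'
    rw [Finsupp.single_apply, if_neg]
    intro h'
    exact hj' (Prod.ext_iff.mp (e.injective h')).1
  · simp

theorem base_degree {s c : ℕ} (e : Fin s × Fin c ↪ σ) (φ : Fin s → Fin c) :
    (base e φ).degree = s := by
  unfold base
  rw [map_sum]
  simp

theorem base_injective {s c : ℕ} (e : Fin s × Fin c ↪ σ) : Function.Injective (base e) := by
  intro φ φ' h
  funext j
  have h1 := base_e e φ' j (φ j)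
  rw [← h, base_e, if_pos rfl] at h1
  by_contra hne
  rw [if_neg (fun h => hne h.symm)] at h1
  exact one_ne_zero h1

open Classical in
theorem count_full {c n : ℕ} (e : Fin n × Fin c ↪ σ) :
    c ^ n ≤ ((mons σ n).filter (fun μ => Meets (blk e) μ)).card := by
  have h1 : (Finset.univ.image (base e)).card = c ^ n := by
    rw [Finset.card_image_of_injective _ (base_injective e), Finset.card_univ]
    simp
  rw [← h1]
  apply Finset.card_le_card
  intro μ hμ
  rw [Finset.mem_image] at hμ
  obtain ⟨φ, _, rfl⟩ := hμ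
  rw [Finset.mem_filter, mem_mons]
  refine ⟨base_degree e φ, fun j => ⟨e (j, φ j), blk_e e j (φ j), ?_⟩⟩
  rw [base_e, if_pos rfl]
  exact one_ne_zero

open Classical in
/-- The count for `n = s + 1` and blocks of size two. -/
theorem count_two {s : ℕ} (hs : 1 ≤ s) (e : Fin s × Fin 2 ↪ σ) :
    2 ^ s * (Fintype.card σ - s) + 1 ≤
      ((mons σ (s + 1)).filter (fun μ => Meets (blk e) μ)).card := by
  set Y : Finset σ := Finset.univ.filter (fun y => ∀ j, y ≠ e (j, 0)) with hY
  have hYc : Y.card = Fintype.card σ - s := by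
    have h1 : Y = Finset.univ \ Finset.univ.image (fun j : Fin s => e (j, 0)) := by
      ext y
      simp only [hY, Finset.mem_filter, Finset.mem_univ, true_and, Finset.mem_sdiff,
        Finset.mem_image, not_exists]
      constructor
      · intro h j hj
        exact h j hj.symm
      · intro h j hj
        exact h j hj.symm
    rw [h1, Finset.card_sdiff_of_subset (Finset.subset_univ _), Finset.card_univ,
      Finset.card_image_of_injective, Finset.card_univ, Fintype.card_fin]
    intro j j' h
    exact (Prod.ext_iff.mp (e.injective h)).1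
  set F : (Fin s → Fin 2) × σ → (σ →₀ ℕ) := fun p => base e p.1 + Finsupp.single p.2 1 with hF
  have hinj : Set.InjOn F ((Finset.univ ×ˢ Y : Finset ((Fin s → Fin 2) × σ)) : Set _) := by
    rintro ⟨φ, y⟩ h1 ⟨φ', y'⟩ h2 h
    simp only [Finset.coe_product, Finset.coe_univ, Set.mem_prod, Set.mem_univ, true_and,
      Finset.mem_coe, hY, Finset.mem_filter, Finset.mem_univ] at h1 h2
    simp only [hF] at h
    have h3 : φ = φ' := by
      funext j
      have h4 := DFunLike.congr_fun h (e (j, 0))
      rw [Finsupp.add_apply, Finsupp.add_apply, base_e, base_e, Finsupp.single_apply,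
        Finsupp.single_apply, if_neg (h1 j), if_neg (h2 j)] at h4
      have h5 : φ j = 0 ∨ φ j = 1 := by
        rcases φ j with ⟨x, hx⟩
        rcases x with _ | _ | x
        · left; rfl
        · right; rfl
        · omega
      have h6 : φ' j = 0 ∨ φ' j = 1 := by
        rcases φ' j with ⟨x, hx⟩
        rcases x with _ | _ | x
        · left; rfl
        · right; rfl
        · omega
      rcases h5 with h5 | h5 <;> rcases h6 with h6 | h6
      · rw [h5, h6]
      · rw [h5, h6] at h4
        simp at h4
      · rw [h5, h6] at h4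
        simp at h4
      · rw [h5, h6]
    subst h3
    have h7 := add_left_cancel h
    have h8 := Finsupp.single_left_injective one_ne_zero h7
    rw [Prod.ext_iff]
    exact ⟨rfl, h8⟩
  set z : σ →₀ ℕ := base e (fun _ => 0) + Finsupp.single (e (⟨0, hs⟩, 0)) 1 with hz
  have hznot : z ∉ (Finset.univ ×ˢ Y : Finset ((Fin s → Fin 2) × σ)).image F := by
    intro h
    rw [Finset.mem_image] at h
    obtain ⟨⟨φ, y⟩, hp, h⟩ := h
    simp only [Finset.mem_product, Finset.mem_univ, true_and, hY, Finset.mem_filter] at hp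
    have h4 := DFunLike.congr_fun h (e (⟨0, hs⟩, 0))
    simp only [hF, hz] at h4
    rw [Finsupp.add_apply, Finsupp.add_apply, base_e, base_e, Finsupp.single_apply,
      Finsupp.single_apply, if_neg (hp _), if_pos rfl, if_pos rfl] at h4
    split_ifs at h4 <;> omega
  have hcard : (insert z ((Finset.univ ×ˢ Y : Finset ((Fin s → Fin 2) × σ)).image F)).card =
      2 ^ s * (Fintype.card σ - s) + 1 := by
    rw [Finset.card_insert_of_notMem hznot, Finset.card_image_of_injOn hinj,
      Finset.card_product, hYc, Finset.card_univ]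
    simp
  rw [← hcard]
  apply Finset.card_le_card
  intro μ hμ
  have hgood : ∀ (φ : Fin s → Fin 2) (y : σ),
      base e φ + Finsupp.single y 1 ∈ (mons σ (s + 1)).filter (fun μ => Meets (blk e) μ) := by
    intro φ y
    rw [Finset.mem_filter, mem_mons, map_add, base_degree, Finsupp.degree_single]
    refine ⟨rfl, fun j => ⟨e (j, φ j), blk_e e j (φ j), ?_⟩⟩
    rw [Finsupp.add_apply, base_e, if_pos rfl]
    omega
  rw [Finset.mem_insert, Finset.mem_image] at hμ
  rcases hμ with rfl | ⟨⟨φ, y⟩, _, rfl⟩
  · exact hgood _ _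
  · exact hgood _ _

theorem exists_emb {s c : ℕ} (h : s * c ≤ Fintype.card σ) : Nonempty (Fin s × Fin c ↪ σ) := by
  apply Function.Embedding.nonempty_of_card_le
  rw [Fintype.card_prod, Fintype.card_fin, Fintype.card_fin]
  exact h

end Pool.Agent.H42.GR
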