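import Pool.Agent.H42.GR.Alg

/-!
Definitions: the cone `Sub_r(S^n V)`, rank with respect to it, nonempty Zariski open subsets,
generic rank.  Here `V` is the space of linear forms in the variables indexed by `σ`, and
`S^n V` is the space of forms of degree `n`.
-/

namespace Pool.Agent.H42.GR

open MvPolynomial

/-- `T` lies in `Sub_r(S^n V)`: there is a subspace `V'` of the space `V` of linear forms with
`dim V' = r` and `T` in `S^n V' = V' ^ n` (the span of all products of `n` elements of `V'`). -/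
def InSub (σ : Type) (n r : ℕ) (T : MvPolynomial σ ℂ) : Prop :=
  ∃ V' : Submodule ℂ (MvPolynomial σ ℂ), V' ≤ homogeneousSubmodule σ ℂ 1 ∧
    Module.finrank ℂ V' = r ∧ T ∈ V' ^ n

/-- The rank of `T` with respect to `Sub_r(S^n V)` is at most `s`. -/
def RankLE (σ : Type) (n r s : ℕ) (T : MvPolynomial σ ℂ) : Prop :=
  ∃ t : Fin s → MvPolynomial σ ℂ, (∀ j, InSub σ n r (t j)) ∧ T = ∑ j, t j

/-- The set `S` contains a nonempty Zariski open subset of the space `S^n V` of forms of
degree `n`: it contains a nonempty set of the form `{T | P(T) ≠ 0}`, `P` a polynomial in the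
coefficients of `T`. -/
def ContainsOpen (σ : Type) (n : ℕ) (S : Set (MvPolynomial σ ℂ)) : Prop :=
  ∃ P : MvPolynomial (σ →₀ ℕ) ℂ,
    (∃ T ∈ homogeneousSubmodule σ ℂ n, eval (fun μ => coeff μ T) P ≠ 0) ∧
    ∀ T ∈ homogeneousSubmodule σ ℂ n, eval (fun μ => coeff μ T) P ≠ 0 → T ∈ S

/-- `s` is the generic rank of `S^n V` with respect to `Sub_r(S^n V)`. -/
def IsGenericRank (σ : Type) (n r s : ℕ) : Prop :=
  IsLeast {s | ContainsOpen σ n {T | RankLE σ n r s T}} s

end Pool.Agent.H42.GR
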