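import Pool.Agent.H42.GR.Count

/-!
The dominance criterion: if the tangent directions at a suitable point span all forms, the forms
of rank at most `s` contain a nonempty Zariski open set.
-/

namespace Pool.Agent.H42.GR

open MvPolynomial

variable {σ : Type} [Fintype σ] [DecidableEq σ]

/-- Parameters: the matrices and the coefficients. -/
abbrev PB (σ : Type) [Fintype σ] [DecidableEq σ] (n s : ℕ) : Type :=
  Fin s × ((σ × σ) ⊕ ↥(mons σ n))

/-- The matrices at a point. -/
def ptA {n s : ℕ} {S : Type} (p : PB σ n s → S) : Fin s → σ → σ → S :=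
  fun j k l => p (j, Sum.inl (k, l))

/-- The forms at a point. -/
noncomputable def ptQ {n s : ℕ} {S : Type} [CommRing S] (p : PB σ n s → S) :
    Fin s → MvPolynomial σ S :=
  fun j => ∑ ν : ↥(mons σ n), monomial ν.1 (p (j, Sum.inr ν))

/-- The sum at a point. -/
noncomputable def ptT {n s : ℕ} {S : Type} [CommRing S] (b : σ → Option (Fin s))
    (p : PB σ n s → S) : MvPolynomial σ S :=
  Tsum b (ptA p) (ptQ p)

/-- The polynomial map. -/
noncomputable def Phi {n s : ℕ} (b : σ → Option (Fin s)) (μ : ↥(mons σ n)) :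
    MvPolynomial (PB σ n s) ℂ :=
  coeff μ.1 (ptT b (fun x : PB σ n s => (X x : MvPolynomial (PB σ n s) ℂ)))

theorem eval_Phi {n s : ℕ} (b : σ → Option (Fin s)) (p : PB σ n s → ℂ) (μ : ↥(mons σ n)) :
    eval p (Phi b μ) = coeff μ.1 (ptT b p) := by
  unfold Phi ptT
  rw [← coeff_map, Tsum_map]
  congr 2
  · funext j k l
    simp [ptA]
  · funext j
    simp only [ptQ]
    rw [map_sum]
    refine Finset.sum_congr rfl fun ν _ => ?_
    rw [map_monomial, eval_X]

/-- The tangent directions at the point `p`. -/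
noncomputable def Dir {n s : ℕ} (b : σ → Option (Fin s)) (p : PB σ n s → ℂ) :
    Submodule ℂ (MvPolynomial σ ℂ) where
  carrier := {P | ∃ q : PB σ n s → ℂ, ∀ μ : ↥(mons σ n),
    ∑ x, q x * eval p (pderiv x (Phi b μ)) = coeff μ.1 P}
  add_mem' := by
    rintro P P' ⟨q, hq⟩ ⟨q', hq'⟩
    refine ⟨fun x => q x + q' x, fun μ => ?_⟩
    rw [coeff_add, ← hq, ← hq', ← Finset.sum_add_distrib]
    refine Finset.sum_congr rfl fun x _ => ?_
    ring
  zero_mem' := ⟨fun _ => 0, fun μ => by simp⟩
  smul_mem' := by
    rintro a P ⟨q, hq⟩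
    refine ⟨fun x => a * q x, fun μ => ?_⟩
    rw [coeff_smul, smul_eq_mul, ← hq, Finset.mul_sum]
    refine Finset.sum_congr rfl fun x _ => ?_
    ring

theorem mem_Dir_of_affine {n s : ℕ} (b : σ → Option (Fin s)) (p q : PB σ n s → ℂ)
    (P : MvPolynomial σ ℂ)
    (h : ∀ t : ℂ, ptT b (fun x => p x + t * q x) = ptT b p + C t * P) :
    P ∈ Dir b p := by
  refine ⟨q, fun μ => ?_⟩
  apply deriv_of_affine
  intro t
  rw [eval_Phi, eval_Phi, h t, coeff_add, coeff_C_mul]

/-- The base point. -/
noncomputable def basePt {n s : ℕ} (Q₀ : Fin s → MvPolynomial σ ℂ) : PB σ n s → ℂ :=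
  fun x => Sum.elim (fun kl : σ × σ => if kl.1 = kl.2 then 1 else 0)
    (fun ν : ↥(mons σ n) => coeff ν.1 (Q₀ x.1)) x.2

theorem ptQ_basePt {n s : ℕ} (Q₀ : Fin s → MvPolynomial σ ℂ)
    (hQ₀ : ∀ j, (Q₀ j).IsHomogeneous n) : ptQ (basePt Q₀ : PB σ n s → ℂ) = Q₀ := by
  funext j
  have := formOf_coeff (hQ₀ j)
  unfold formOf at this
  simpa [ptQ, basePt] using this

theorem lin_base {s : ℕ} (b : σ → Option (Fin s)) (j : Fin s) (l : σ) :
    (if b l = some j then 0 else
      ∑ k, C (if k = l then (1 : ℂ) else 0) * (X k : MvPolynomial σ ℂ)) =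
    if b l = some j then 0 else X l := by
  split_ifs with h
  · rfl
  · rw [Finset.sum_eq_single l]
    · simp
    · intro k _ hk
      rw [if_neg hk, C_0, zero_mul]
    · simp

/-- Direction (a): monomials missing a block. -/
theorem mem_Dir_mon {n s : ℕ} (b : σ → Option (Fin s)) (Q₀ : Fin s → MvPolynomial σ ℂ)
    (j : Fin s) (ν : σ →₀ ℕ) (hν : ν ∈ mons σ n) (hmiss : ∀ i, b i = some j → ν i = 0) :
    (monomial ν (1 : ℂ)) ∈ Dir b (basePt Q₀ : PB σ n s → ℂ) := by
  classical
  set q : PB σ n s → ℂ := fun x => if x = (j, Sum.inr ⟨ν, hν⟩) then 1 else 0 with hq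
  apply mem_Dir_of_affine b _ q
  intro t
  have hA : ptA (fun x => basePt Q₀ x + t * q x) = ptA (basePt Q₀ : PB σ n s → ℂ) := by
    funext j' k l
    simp [ptA, hq]
  have hQ : ∀ j', ptQ (fun x => basePt Q₀ x + t * q x) j' =
      ptQ (basePt Q₀ : PB σ n s → ℂ) j' + (if j' = j then C t * monomial ν 1 else 0) := by
    intro j'
    simp only [ptQ, map_add, Finset.sum_add_distrib]
    congr 1
    by_cases hj : j' = j
    · rw [if_pos hj, Finset.sum_eq_single ⟨ν, hν⟩]
      · simp [hq, hj, C_mul_monomial]
      · intro ν' _ hν'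
        simp [hq, hν']
      · simp
    · rw [if_neg hj]
      refine Finset.sum_eq_zero fun ν' _ => ?_
      simp [hq, hj]
  unfold ptT Tsum
  rw [hA]
  have h1 : ∀ j', aeval (fun l => if b l = some j' then 0 else
        ∑ k, C (ptA (basePt Q₀ : PB σ n s → ℂ) j' k l) * (X k : MvPolynomial σ ℂ))
        (ptQ (fun x => basePt Q₀ x + t * q x) j') =
      aeval (fun l => if b l = some j' then 0 else
        ∑ k, C (ptA (basePt Q₀ : PB σ n s → ℂ) j' k l) * (X k : MvPolynomial σ ℂ))
        (ptQ (basePt Q₀ : PB σ n s → ℂ) j') + (if j' = j then C t * monomial ν 1 else 0) := by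
    intro j'
    rw [hQ j', map_add]
    congr 1
    split_ifs with hj
    · subst hj
      rw [map_mul, aeval_C, algebraMap_eq]
      congr 1
      have h2 : (fun l => if b l = some j' then 0 else
          ∑ k, C (ptA (basePt Q₀ : PB σ n s → ℂ) j' k l) * (X k : MvPolynomial σ ℂ)) =
          fun l => if b l = some j' then 0 else X l := by
        funext l
        exact lin_base b j' l
      rw [h2, aeval_monomial, map_one, one_mul, Finsupp.prod_fintype _ _ (fun _ => pow_zero _),
        monomial_eq, C_1, one_mul, Finsupp.prod_fintype _ _ (fun _ => pow_zero _)]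
      refine Finset.prod_congr rfl fun i _ => ?_
      split_ifs with hi
      · rw [hmiss i hi, pow_zero, pow_zero]
      · rfl
    · rw [map_zero]
  rw [Finset.sum_congr rfl fun j' _ => h1 j', Finset.sum_add_distrib, Finset.sum_ite_eq',
    if_pos (Finset.mem_univ _)]

/-- `w` only involves variables of the other blocks. -/
def OtherBlocks {s : ℕ} (b : σ → Option (Fin s)) (j : Fin s) (w : MvPolynomial σ ℂ) : Prop :=
  w ∈ supported ℂ {l | b l ≠ none ∧ b l ≠ some j}

omit [DecidableEq σ] in
theorem aeval_of_supported {w : MvPolynomial σ ℂ} {Z : Set σ} (hw : w ∈ supported ℂ Z)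
    (v : σ → MvPolynomial σ ℂ) (hv : ∀ l ∈ Z, v l = X l) : aeval v w = w := by
  rw [supported_eq_adjoin_X] at hw
  induction hw using Algebra.adjoin_induction with
  | mem x hx =>
    obtain ⟨l, hl, rfl⟩ := hx
    rw [aeval_X, hv l hl]
  | algebraMap r => rw [algebraMap_eq, algHom_C, algebraMap_eq]
  | add x y _ _ hx hy => rw [map_add, hx, hy]
  | mul x y _ _ hx hy => rw [map_mul, hx, hy]

/-- Direction (b). -/
theorem mem_Dir_tan {n s : ℕ} (b : σ → Option (Fin s)) (w : Fin s → σ → MvPolynomial σ ℂ)
    (hw : ∀ j z, OtherBlocks b j (w j z)) (hwn : ∀ j z, (w j z).IsHomogeneous n)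
    (j : Fin s) (z k₀ : σ) (hz : b z = none) :
    X k₀ * w j z ∈ Dir b (basePt
      (fun j => ∑ z, (if b z = none then X z * w j z else 0)) : PB σ (n + 1) s → ℂ) := by
  classical
  set Q₀ : Fin s → MvPolynomial σ ℂ :=
    fun j => ∑ z, (if b z = none then X z * w j z else 0) with hQ₀
  have hQ₀h : ∀ j, (Q₀ j).IsHomogeneous (n + 1) := by
    intro j
    apply IsHomogeneous.sum
    intro z _
    split_ifs
    · have := (isHomogeneous_X ℂ z).mul (hwn j z)
      rwa [add_comm 1 n] at this
    · exact isHomogeneous_zero _ _ _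
  set q : PB σ (n + 1) s → ℂ := fun x => if x = (j, Sum.inl (k₀, z)) then 1 else 0 with hq
  apply mem_Dir_of_affine b _ q
  intro t
  have hQ' : ptQ (basePt Q₀ : PB σ (n + 1) s → ℂ) = Q₀ := ptQ_basePt Q₀ hQ₀h
  have hQ : ptQ (fun x => basePt Q₀ x + t * q x) = Q₀ := by
    refine Eq.trans ?_ hQ'
    funext j'
    simp [ptQ, hq]
  unfold ptT Tsum
  rw [hQ, hQ']
  have h1 : ∀ (t : ℂ) (j' : Fin s), aeval (fun l => if b l = some j' then 0 else
        ∑ k, C (ptA (fun x => basePt Q₀ x + t * q x) j' k l) * (X k : MvPolynomial σ ℂ))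
        (Q₀ j') =
      Q₀ j' + (if j' = j then C t * (X k₀ * w j z) else 0) := by
    intro t j'
    set v : σ → MvPolynomial σ ℂ := fun l => if b l = some j' then 0 else
        ∑ k, C (ptA (fun x => basePt Q₀ x + t * q x) j' k l) * (X k : MvPolynomial σ ℂ) with hv
    have hvl : ∀ l, b l ≠ some j' →
        v l = X l + (if j' = j ∧ l = z then C t * X k₀ else 0) := by
      intro l hl
      simp only [hv]
      rw [if_neg hl]
      have h2 : ∀ k, C (ptA (fun x => basePt Q₀ x + t * q x) j' k l) *
          (X k : MvPolynomial σ ℂ) =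
          C (if k = l then (1 : ℂ) else 0) * X k +
            (if k = k₀ then (if j' = j ∧ l = z then C t * X k₀ else 0) else 0) := by
        intro k
        simp only [ptA, basePt, hq, Sum.elim_inl, C_add, add_mul]
        congr 1
        by_cases h3 : k = k₀
        · subst h3
          by_cases h4 : j' = j ∧ l = z
          · rw [if_pos rfl, if_pos h4, h4.1, h4.2, if_pos rfl, mul_one]
          · rw [if_pos rfl, if_neg h4, if_neg]
            · simp
            · intro h5
              apply h4
              simp only [Prod.mk.injEq, Sum.inl.injEq] at h5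
              exact ⟨h5.1, h5.2.2⟩
        · rw [if_neg h3, if_neg]
          · simp
          · intro h5
            simp only [Prod.mk.injEq, Sum.inl.injEq] at h5
            exact h3 h5.2.1
      rw [Finset.sum_congr rfl fun k _ => h2 k, Finset.sum_add_distrib, Finset.sum_ite_eq',
        if_pos (Finset.mem_univ _)]
      congr 1
      rw [Finset.sum_eq_single l]
      · simp
      · intro k _ hk
        rw [if_neg hk, C_0, zero_mul]
      · simp
    have hvw : ∀ z', aeval v (w j' z') = w j' z' := by
      intro z'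
      apply aeval_of_supported (hw j' z')
      rintro l ⟨hl1, hl2⟩
      rw [hvl l hl2, if_neg]
      · rw [add_zero]
      · rintro ⟨_, rfl⟩
        exact hl1 hz
    simp only [hQ₀]
    rw [map_sum]
    have h6 : ∀ z', aeval v (if b z' = none then X z' * w j' z' else 0) =
        (if b z' = none then X z' * w j' z' else 0) +
          (if z' = z then (if j' = j then C t * (X k₀ * w j z) else 0) else 0) := by
      intro z'
      by_cases h7 : b z' = none
      · rw [if_pos h7, map_mul, aeval_X, hvw, hvl z' (by rw [h7]; simp), add_mul]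
        congr 1
        by_cases h8 : z' = z
        · subst h8
          by_cases h9 : j' = j
          · subst h9
            rw [if_pos ⟨rfl, rfl⟩, if_pos rfl, if_pos rfl, mul_assoc]
          · rw [if_neg (fun h => h9 h.1), if_pos rfl, if_neg h9, zero_mul]
        · rw [if_neg (fun h => h8 h.2), if_neg h8, zero_mul]
      · rw [if_neg h7, map_zero, if_neg, add_zero]
        rintro rfl
        exact h7 hz
    rw [Finset.sum_congr rfl fun z' _ => h6 z', Finset.sum_add_distrib, Finset.sum_ite_eq',
      if_pos (Finset.mem_univ _)]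
  have h10 : (fun x => basePt Q₀ x + (0 : ℂ) * q x) = (basePt Q₀ : PB σ (n + 1) s → ℂ) := by
    funext x
    ring
  have h11 : ∀ j', aeval (fun l => if b l = some j' then 0 else
        ∑ k, C (ptA (basePt Q₀ : PB σ (n + 1) s → ℂ) j' k l) * (X k : MvPolynomial σ ℂ))
        (Q₀ j') = Q₀ j' := by
    intro j'
    have := h1 0 j'
    rw [h10] at this
    rw [this]
    simp
  rw [Finset.sum_congr rfl fun j' _ => h1 t j', Finset.sum_congr rfl fun j' _ => h11 j',
    Finset.sum_add_distrib, Finset.sum_ite_eq', if_pos (Finset.mem_univ _)]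

/-- The dominance criterion. -/
theorem containsOpen_of_dir {n s r : ℕ} (b : σ → Option (Fin s))
    (hb : ∀ j, Fintype.card {l : σ // b l ≠ some j} ≤ r) (hr : r ≤ Fintype.card σ)
    (p : PB σ n s → ℂ) (hp : ∀ μ ∈ mons σ n, monomial μ (1 : ℂ) ∈ Dir b p) :
    ContainsOpen σ n {T | RankLE σ n r s T} := by
  classical
  have hdom : ∀ P : MvPolynomial ↥(mons σ n) ℂ, aeval (Phi b) P = 0 → P = 0 := by
    apply dominant_of_differential (Phi b) p
    intro i
    obtain ⟨q, hq⟩ := hp i.1 i.2
    refine ⟨q, fun k => ?_⟩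
    rw [hq k, coeff_monomial]
    by_cases h : k = i
    · subst h
      simp
    · rw [if_neg, if_neg h]
      intro h'
      exact h (Subtype.ext h'.symm)
  obtain ⟨f, hf0, hf⟩ := exists_open_in_image (Phi b) hdom
  refine ⟨rename Subtype.val f, ?_, ?_⟩
  · have : ∃ y : ↥(mons σ n) → ℂ, eval y f ≠ 0 := by
      by_contra hcon
      push Not at hcon
      apply hf0
      apply MvPolynomial.funext
      intro y
      rw [hcon y, map_zero]
    obtain ⟨y, hy⟩ := this
    refine ⟨formOf n y, formOf_isHomogeneous n y, ?_⟩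
    rw [eval_rename]
    have h1 : ((fun μ => coeff μ (formOf n y)) ∘ Subtype.val : ↥(mons σ n) → ℂ) = y := by
      funext μ
      rw [Function.comp_apply, coeff_formOf, dif_pos μ.2]
    rw [h1]
    exact hy
  · intro T hT hne
    rw [eval_rename] at hne
    obtain ⟨x, hx⟩ := hf _ hne
    have hTe : T = ptT b x := by
      have h1 : (ptT b x).IsHomogeneous n := by
        unfold ptT
        apply Tsum_isHomogeneous
        intro j
        exact formOf_isHomogeneous n (fun ν => x (j, Sum.inr ν))
      rw [← formOf_coeff hT, ← formOf_coeff h1]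
      congr 1
      funext μ
      rw [← eval_Phi, hx]
      rfl
    rw [hTe]
    unfold ptT Tsum
    refine ⟨fun j => aeval (fun l => if b l = some j then 0 else
      ∑ k, C (ptA x j k l) * X k) (ptQ x j), fun j => ?_, rfl⟩
    refine inSub_of_aeval b j (hb j) hr _ ?_ ?_ _ ?_
    · intro l
      split_ifs
      · exact isHomogeneous_zero _ _ _
      · apply IsHomogeneous.sum
        intro k _
        have := (isHomogeneous_C σ (ptA x j k l)).mul (isHomogeneous_X ℂ k)
        simpa using this
    · intro l hl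
      rw [if_pos hl]
    · exact formOf_isHomogeneous n (fun ν => x (j, Sum.inr ν))

end Pool.Agent.H42.GR
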