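import Pool.Agent.H42.GR.Defs

/-!
The lower bound: a dimension count for sums of `s` elements of `Sub_r(S^n V)`.
-/

namespace Pool.Agent.H42.GR

open MvPolynomial

/-- Exponent vectors of degree `n`. -/
noncomputable def mons (σ : Type) [Fintype σ] [DecidableEq σ] (n : ℕ) : Finset (σ →₀ ℕ) :=
  Finset.univ.finsuppAntidiag n

theorem mem_mons {σ : Type} [Fintype σ] [DecidableEq σ] {n : ℕ} {μ : σ →₀ ℕ} :
    μ ∈ mons σ n ↔ μ.degree = n := by
  unfold mons
  rw [Finset.mem_finsuppAntidiag, Finsupp.degree_eq_sum]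
  simp

/-- The exponent vector involves all blocks. -/
def Meets {σ : Type} {s : ℕ} (b : σ → Option (Fin s)) (μ : σ →₀ ℕ) : Prop :=
  ∀ j : Fin s, ∃ i, b i = some j ∧ μ i ≠ 0

variable {σ : Type} [Fintype σ] [DecidableEq σ]

/-- Substitution of linear forms given by a matrix. -/
noncomputable def sub {R : Type} [CommRing R] (G : Matrix σ σ R) :
    MvPolynomial σ R →ₐ[R] MvPolynomial σ R :=
  aeval fun k => ∑ i, C (G k i) * X i

theorem sub_sub {R : Type} [CommRing R] (G H : Matrix σ σ R) (T : MvPolynomial σ R) :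
    sub G (sub H T) = sub (H * G) T := by
  have : (sub G).comp (sub H) = sub (H * G) := by
    apply MvPolynomial.algHom_ext
    intro k
    simp only [sub, AlgHom.comp_apply, aeval_X, map_sum, map_mul, algHom_C]
    simp only [Matrix.mul_apply, map_sum, map_mul, Finset.sum_mul, Finset.mul_sum, algebraMap_eq]
    rw [Finset.sum_comm]
    refine Finset.sum_congr rfl fun i _ => Finset.sum_congr rfl fun l _ => ?_
    ring
  exact DFunLike.congr_fun this T

theorem sub_one {R : Type} [CommRing R] (T : MvPolynomial σ R) :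
    sub (1 : Matrix σ σ R) T = T := by
  have : sub (1 : Matrix σ σ R) = AlgHom.id R _ := by
    apply MvPolynomial.algHom_ext
    intro k
    simp only [sub, aeval_X, AlgHom.id_apply, Matrix.one_apply]
    rw [Finset.sum_eq_single k]
    · simp
    · intro i _ hi
      rw [if_neg (Ne.symm hi)]
      simp
    · simp
  rw [this]
  rfl

/-- A homogeneous polynomial as a sum over exponent vectors. -/
theorem eq_sum_mons {R : Type} [CommRing R] {n : ℕ} {T : MvPolynomial σ R}
    (hT : T.IsHomogeneous n) :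
    T = ∑ μ ∈ mons σ n, C (coeff μ T) * ∏ i, X i ^ μ i := by
  have h1 : T = ∑ μ ∈ mons σ n, monomial μ (coeff μ T) := by
    conv_lhs => rw [T.as_sum]
    apply Finset.sum_subset
    · intro μ hμ
      rw [mem_mons]
      have := hT (mem_support_iff.mp hμ)
      rw [← this, Finsupp.degree_eq_weight_one]
      rfl
    · intro μ _ hμ
      rw [notMem_support_iff.mp hμ]
      simp
  conv_lhs => rw [h1]
  refine Finset.sum_congr rfl fun μ _ => ?_
  rw [monomial_eq]
  congr 1
  rw [Finsupp.prod_fintype _ _ (fun _ => pow_zero _)]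

theorem sub_isHomogeneous {R : Type} [CommRing R] {n : ℕ} (G : Matrix σ σ R)
    {T : MvPolynomial σ R} (hT : T.IsHomogeneous n) : (sub G T).IsHomogeneous n := by
  rw [eq_sum_mons hT, map_sum]
  apply IsHomogeneous.sum
  intro μ hμ
  rw [map_mul, map_prod]
  have h1 : (sub G (C (coeff μ T))).IsHomogeneous 0 := by
    rw [algHom_C, algebraMap_eq]
    exact isHomogeneous_C _ _
  have h2 : (∏ i, sub G (X i ^ μ i)).IsHomogeneous (∑ i, μ i) := by
    apply IsHomogeneous.prod
    intro i _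
    rw [map_pow]
    have : (sub G (X i)).IsHomogeneous 1 := by
      unfold sub
      rw [aeval_X]
      apply IsHomogeneous.sum
      intro k _
      have := (isHomogeneous_C σ (G i k)).mul (isHomogeneous_X R k)
      simpa using this
    simpa using this.pow (μ i)
  have h3 := h1.mul h2
  rw [mem_mons, Finsupp.degree_eq_sum] at hμ
  rw [zero_add, hμ] at h3
  exact h3

/-- The parameter space: free entries of the matrix and coefficients of the exponent vectors
missing some block. -/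
abbrev Par (σ : Type) [Fintype σ] [DecidableEq σ] {s : ℕ} (n : ℕ) (b : σ → Option (Fin s)) :
    Type :=
  {p : σ × σ // b p.2 ≠ none ∧ b p.1 ≠ b p.2} ⊕ {μ : σ →₀ ℕ // μ ∈ mons σ n ∧ ¬ Meets b μ}

noncomputable instance {s : ℕ} (n : ℕ) (b : σ → Option (Fin s)) :
    Fintype {μ : σ →₀ ℕ // μ ∈ mons σ n ∧ ¬ Meets b μ} := by
  classical
  exact Fintype.subtype ((mons σ n).filter fun μ => ¬ Meets b μ) (by
    intro μ
    rw [Finset.mem_filter])

/-- The generic matrix. -/
noncomputable def Ggen {s : ℕ} (n : ℕ) (b : σ → Option (Fin s)) :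
    Matrix σ σ (MvPolynomial (Par σ n b) ℂ) := by
  classical
  exact Matrix.of fun k i => if h : b i ≠ none ∧ b k ≠ b i then X (Sum.inl ⟨(k, i), h⟩)
    else if k = i then 1 else 0

/-- The generic form. -/
noncomputable def Tgen {s : ℕ} (n : ℕ) (b : σ → Option (Fin s)) :
    MvPolynomial σ (MvPolynomial (Par σ n b) ℂ) :=
  ∑ μ : {μ : σ →₀ ℕ // μ ∈ mons σ n ∧ ¬ Meets b μ},
    C (X (Sum.inr μ)) * ∏ i, (∑ k, C ((Ggen n b).adjugate i k) * X k) ^ (μ.1 i)

/-- The shape of the numeric matrices. -/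
def Shape {s : ℕ} (b : σ → Option (Fin s)) (G : Matrix σ σ ℂ) : Prop :=
  ∀ k i, ¬ (b i ≠ none ∧ b k ≠ b i) → G k i = if k = i then 1 else 0

theorem claimA {s n : ℕ} (b : σ → Option (Fin s)) (G : Matrix σ σ ℂ) (hG : Shape b G)
    (hdet : G.det ≠ 0) (T : MvPolynomial σ ℂ) (hT : T.IsHomogeneous n)
    (hmiss : ∀ μ, Meets b μ → coeff μ (sub G T) = 0) :
    ∃ y : Par σ n b → ℂ, ∀ μ, eval y (coeff μ (Tgen n b)) = coeff μ T := by
  classical
  set d := G.det with hd
  set T' := sub G T with hT'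
  have hT'h : T'.IsHomogeneous n := sub_isHomogeneous G hT
  refine ⟨Sum.elim (fun p => G p.1.1 p.1.2) (fun μ => (d⁻¹) ^ n * coeff μ.1 T'), fun μ => ?_⟩
  set y : Par σ n b → ℂ :=
    Sum.elim (fun p => G p.1.1 p.1.2) (fun μ => (d⁻¹) ^ n * coeff μ.1 T') with hy
  rw [← coeff_map]
  congr 1
  have hGm : (eval y).mapMatrix (Ggen n b) = G := by
    ext k i
    simp only [Ggen, RingHom.mapMatrix_apply, Matrix.map_apply, Matrix.of_apply]
    split_ifs with h h'
    · rw [eval_X]
      simp [hy]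
    · rw [map_one, hG k i h, if_pos h']
    · rw [map_zero, hG k i h, if_neg h']
  have hadj : ∀ i k, eval y ((Ggen n b).adjugate i k) = G.adjugate i k := by
    intro i k
    rw [← hGm, ← RingHom.map_adjugate]
    rfl
  have h1 : map (eval y) (Tgen n b) =
      ∑ μ : {μ : σ →₀ ℕ // μ ∈ mons σ n ∧ ¬ Meets b μ},
        C ((d⁻¹) ^ n * coeff μ.1 T') * ∏ i, (∑ k, C (G.adjugate i k) * X k) ^ (μ.1 i) := by
    unfold Tgen
    rw [map_sum]
    refine Finset.sum_congr rfl fun μ _ => ?_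
    rw [map_mul, map_C, eval_X, map_prod]
    congr 1
    refine Finset.prod_congr rfl fun i _ => ?_
    rw [map_pow, map_sum]
    congr 1
    refine Finset.sum_congr rfl fun k _ => ?_
    rw [map_mul, map_C, map_X, hadj]
  rw [h1]
  -- rewrite `T` through the inverse matrix
  have h2 : T = sub G⁻¹ T' := by
    rw [hT', sub_sub, Matrix.mul_nonsing_inv _ (Ne.isUnit hdet), sub_one]
  have h3 : T' = ∑ μ : {μ : σ →₀ ℕ // μ ∈ mons σ n ∧ ¬ Meets b μ},
      C (coeff μ.1 T') * ∏ i, X i ^ (μ.1 i) := by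
    conv_lhs => rw [eq_sum_mons hT'h]
    rw [← Finset.sum_filter_add_sum_filter_not (mons σ n) (fun μ => ¬ Meets b μ)]
    have h4 : ∑ μ ∈ (mons σ n).filter (fun μ => ¬ ¬ Meets b μ),
        C (coeff μ T') * ∏ i, (X i : MvPolynomial σ ℂ) ^ μ i = 0 := by
      refine Finset.sum_eq_zero fun μ hμ => ?_
      rw [Finset.mem_filter, not_not] at hμ
      rw [hmiss μ hμ.2]
      simp
    rw [h4, add_zero]
    refine Finset.sum_subtype (p := fun μ => μ ∈ mons σ n ∧ ¬ Meets b μ) _ ?_ _
    intro μ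
    rw [Finset.mem_filter]
  conv_rhs => rw [h2, h3, map_sum]
  refine Finset.sum_congr rfl fun μ _ => ?_
  have hinv : ∀ i k, G⁻¹ i k = d⁻¹ * G.adjugate i k := by
    intro i k
    rw [Matrix.inv_def, Matrix.smul_apply, Ring.inverse_eq_inv', smul_eq_mul]
  have h5 : ∀ i, sub G⁻¹ (X i : MvPolynomial σ ℂ) =
      C (d⁻¹) * ∑ k, C (G.adjugate i k) * X k := by
    intro i
    unfold sub
    rw [aeval_X, Finset.mul_sum]
    refine Finset.sum_congr rfl fun k _ => ?_
    rw [hinv, C_mul, mul_assoc]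
  have h9 : sub G⁻¹ (C (coeff μ.1 T') * ∏ i, (X i : MvPolynomial σ ℂ) ^ (μ.1 i)) =
      C (coeff μ.1 T') * ∏ i, sub G⁻¹ ((X i : MvPolynomial σ ℂ) ^ (μ.1 i)) := by
    rw [map_mul, algHom_C, algebraMap_eq, map_prod]
  rw [h9]
  have h6 : ∏ i, sub G⁻¹ ((X i : MvPolynomial σ ℂ) ^ (μ.1 i)) =
      C ((d⁻¹) ^ n) * ∏ i, (∑ k, C (G.adjugate i k) * X k) ^ (μ.1 i) := by
    have h7 : ∀ i, sub G⁻¹ ((X i : MvPolynomial σ ℂ) ^ (μ.1 i)) =
        C (d⁻¹) ^ (μ.1 i) * (∑ k, C (G.adjugate i k) * X k) ^ (μ.1 i) := by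
      intro i
      rw [map_pow, h5, mul_pow]
    rw [Finset.prod_congr rfl fun i _ => h7 i, Finset.prod_mul_distrib,
      Finset.prod_pow_eq_pow_sum]
    have h8 : ∑ i, μ.1 i = n := by
      have := mem_mons.mp μ.2.1
      rwa [Finsupp.degree_eq_sum] at this
    rw [h8, C_pow]
  rw [h6, C_mul]
  ring

end Pool.Agent.H42.GR
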