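import Pool.Agent.H42.GR.Lower

/-!
Second part of the lower bound: every sum of `s` elements of `Sub_r(S^n V)` with generic
subspaces is covered by the parametrisation with few parameters; density of the generic ones.
-/

namespace Pool.Agent.H42.GR

open MvPolynomial

variable {σ : Type} [Fintype σ] [DecidableEq σ]

/-- The square matrix of the `j`-th subspace, completed by the identity on the `j`-th block. -/
def Bm {S : Type} [CommRing S] {s : ℕ} (b : σ → Option (Fin s)) (A : Fin s → σ → σ → S)
    (j : Fin s) : Matrix σ σ S :=
  Matrix.of fun k l => if b k = some j ∨ b l = some j then (if k = l then 1 else 0) else A j k l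

/-- The matrix whose columns in block `j` are orthogonal to the `j`-th subspace. -/
def Gm {S : Type} [CommRing S] {s : ℕ} (b : σ → Option (Fin s)) (A : Fin s → σ → σ → S) :
    Matrix σ σ S :=
  Matrix.of fun k i =>
    match b i with
    | none => if k = i then 1 else 0
    | some j => if b k = some j then (if k = i then (Bm b A j).det else 0)
        else - ∑ l, (if b l = some j then 0 else (Bm b A j).adjugate l k * A j i l)

/-- The genericity condition. -/
def hpoly {S : Type} [CommRing S] {s : ℕ} (b : σ → Option (Fin s)) (A : Fin s → σ → σ → S) : S :=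
  (Gm b A).det * ∏ j, (Bm b A j).det

theorem Bm_map {S S' : Type} [CommRing S] [CommRing S'] {s : ℕ} (f : S →+* S')
    (b : σ → Option (Fin s)) (A : Fin s → σ → σ → S) (j : Fin s) :
    f.mapMatrix (Bm b A j) = Bm b (fun j k l => f (A j k l)) j := by
  ext k l
  simp only [Bm, RingHom.mapMatrix_apply, Matrix.map_apply, Matrix.of_apply]
  split_ifs <;> simp

theorem Gm_map {S S' : Type} [CommRing S] [CommRing S'] {s : ℕ} (f : S →+* S')
    (b : σ → Option (Fin s)) (A : Fin s → σ → σ → S) :
    f.mapMatrix (Gm b A) = Gm b (fun j k l => f (A j k l)) := by
  ext k i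
  simp only [Gm, RingHom.mapMatrix_apply, Matrix.map_apply, Matrix.of_apply]
  cases hb : b i with
  | none =>
    simp only
    split_ifs <;> simp
  | some j =>
    simp only
    split_ifs with h1 h2
    · rw [RingHom.map_det, Bm_map]
    · simp
    · rw [map_neg, map_sum]
      congr 1
      refine Finset.sum_congr rfl fun l _ => ?_
      split_ifs with h3
      · simp
      · rw [map_mul, ← Bm_map, ← RingHom.map_adjugate]
        rfl

theorem hpoly_map {S S' : Type} [CommRing S] [CommRing S'] {s : ℕ} (f : S →+* S')
    (b : σ → Option (Fin s)) (A : Fin s → σ → σ → S) :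
    f (hpoly b A) = hpoly b (fun j k l => f (A j k l)) := by
  unfold hpoly
  rw [map_mul, map_prod, RingHom.map_det, Gm_map]
  congr 1
  refine Finset.prod_congr rfl fun j _ => ?_
  rw [RingHom.map_det, Bm_map]

theorem hpoly_one {S : Type} [CommRing S] {s : ℕ} (b : σ → Option (Fin s)) :
    hpoly b (fun _ k l => if k = l then (1 : S) else 0) = 1 := by
  have hB : ∀ j, Bm b (fun _ k l => if k = l then (1 : S) else 0) j = 1 := by
    intro j
    ext k l
    simp only [Bm, Matrix.of_apply, Matrix.one_apply]
    split_ifs <;> rfl
  have hG : Gm b (fun _ k l => if k = l then (1 : S) else 0) = 1 := by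
    ext k i
    simp only [Gm, Matrix.of_apply, Matrix.one_apply]
    cases hb : b i with
    | none => rfl
    | some j =>
      simp only [hB, Matrix.det_one, Matrix.adjugate_one, Matrix.one_apply]
      by_cases h1 : b k = some j
      · rw [if_pos h1]
      · rw [if_neg h1]
        have hki : k ≠ i := by
          rintro rfl
          exact h1 hb
        rw [if_neg hki, neg_eq_zero]
        refine Finset.sum_eq_zero fun l _ => ?_
        by_cases h2 : b l = some j
        · rw [if_pos h2]
        · rw [if_neg h2]
          have hil : i ≠ l := by
            rintro rfl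
            exact h2 hb
          rw [if_neg hil, mul_zero]
  unfold hpoly
  rw [hG, Matrix.det_one, one_mul]
  refine Finset.prod_eq_one fun j _ => ?_
  rw [hB, Matrix.det_one]

/-- Orthogonality. -/
theorem Gm_orth {S : Type} [CommRing S] {s : ℕ} (b : σ → Option (Fin s))
    (A : Fin s → σ → σ → S) (j : Fin s) (i l' : σ) (hi : b i = some j) (hl' : b l' ≠ some j) :
    ∑ k, A j k l' * Gm b A k i = 0 := by
  have hG : ∀ k, Gm b A k i = if b k = some j then (if k = i then (Bm b A j).det else 0)
        else - ∑ l, (if b l = some j then 0 else (Bm b A j).adjugate l k * A j i l) := by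
    intro k
    simp only [Gm, Matrix.of_apply, hi]
  have h1 : ∀ k, A j k l' * Gm b A k i =
      (if k = i then A j i l' * (Bm b A j).det else 0) -
        (if b k = some j then 0 else
          ∑ l, (if b l = some j then 0 else A j i l * ((Bm b A j).adjugate l k * A j k l'))) := by
    intro k
    rw [hG k]
    by_cases hk : b k = some j
    · rw [if_pos hk, if_pos hk]
      by_cases hki : k = i
      · subst hki
        rw [if_pos rfl, if_pos rfl, sub_zero]
      · rw [if_neg hki, if_neg hki, mul_zero, sub_zero]
    · rw [if_neg hk, if_neg hk]
      have hki : k ≠ i := by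
        rintro rfl
        exact hk hi
      rw [if_neg hki, zero_sub, mul_neg, Finset.mul_sum]
      congr 1
      refine Finset.sum_congr rfl fun l _ => ?_
      split_ifs
      · simp
      · ring
  rw [Finset.sum_congr rfl fun k _ => h1 k, Finset.sum_sub_distrib, Finset.sum_ite_eq',
    if_pos (Finset.mem_univ _)]
  have h2 : ∀ k, (if b k = some j then 0 else
          ∑ l, (if b l = some j then 0 else A j i l * ((Bm b A j).adjugate l k * A j k l'))) =
      ∑ l, (if b l = some j then 0 else A j i l * ((Bm b A j).adjugate l k * Bm b A j k l')) := by
    intro k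
    by_cases hk : b k = some j
    · rw [if_pos hk]
      symm
      refine Finset.sum_eq_zero fun l _ => ?_
      split_ifs with h3
      · rfl
      · have : Bm b A j k l' = 0 := by
          simp only [Bm, Matrix.of_apply]
          rw [if_pos (Or.inl hk), if_neg]
          rintro rfl
          exact hl' hk
        rw [this, mul_zero, mul_zero]
    · rw [if_neg hk]
      refine Finset.sum_congr rfl fun l _ => ?_
      split_ifs with h3
      · rfl
      · have : Bm b A j k l' = A j k l' := by
          simp only [Bm, Matrix.of_apply]
          rw [if_neg]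
          push Not
          exact ⟨hk, hl'⟩
        rw [this]
  rw [Finset.sum_congr rfl fun k _ => h2 k, Finset.sum_comm]
  have h3 : ∀ l, ∑ k, (if b l = some j then 0 else
      A j i l * ((Bm b A j).adjugate l k * Bm b A j k l')) =
      if l = l' then A j i l' * (Bm b A j).det else 0 := by
    intro l
    have h4 : ∑ k, (Bm b A j).adjugate l k * Bm b A j k l' =
        if l = l' then (Bm b A j).det else 0 := by
      have := congrFun (congrFun (Matrix.adjugate_mul (Bm b A j)) l) l'
      rw [Matrix.mul_apply] at this
      rw [this, Matrix.smul_apply, Matrix.one_apply]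
      split_ifs <;> simp
    by_cases hl : b l = some j
    · have hne : l ≠ l' := by
        rintro rfl
        exact hl' hl
      simp only [if_pos hl, if_neg hne, Finset.sum_const_zero]
    · simp only [if_neg hl]
      rw [← Finset.mul_sum, h4]
      by_cases h5 : l = l'
      · subst h5
        rw [if_pos rfl, if_pos rfl]
      · rw [if_neg h5, if_neg h5, mul_zero]
  rw [Finset.sum_congr rfl fun l _ => h3 l, Finset.sum_ite_eq', if_pos (Finset.mem_univ _),
    sub_self]

/-- The sum of the forms `Q_j` evaluated at linear forms. -/
noncomputable def Tsum {S : Type} [CommRing S] {s : ℕ} (b : σ → Option (Fin s))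
    (A : Fin s → σ → σ → S) (Q : Fin s → MvPolynomial σ S) : MvPolynomial σ S :=
  ∑ j, aeval (fun l => if b l = some j then 0 else ∑ k, C (A j k l) * X k) (Q j)

theorem claimB {s : ℕ} (b : σ → Option (Fin s)) (A : Fin s → σ → σ → ℂ) (hA : hpoly b A ≠ 0)
    (Q : Fin s → MvPolynomial σ ℂ) :
    ∃ G : Matrix σ σ ℂ, Shape b G ∧ G.det ≠ 0 ∧
      ∀ μ, Meets b μ → coeff μ (sub G (Tsum b A Q)) = 0 := by
  classical
  have hdG : (Gm b A).det ≠ 0 := left_ne_zero_of_mul hA
  have hdB : ∀ j, (Bm b A j).det ≠ 0 := fun j =>
    Finset.prod_ne_zero_iff.mp (right_ne_zero_of_mul hA) j (Finset.mem_univ _)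
  set v : σ → ℂ := fun i => match b i with
    | none => 1
    | some j => (Bm b A j).det⁻¹ with hv
  have hv0 : ∀ i, v i ≠ 0 := by
    intro i
    simp only [hv]
    cases b i with
    | none => exact one_ne_zero
    | some j => exact inv_ne_zero (hdB j)
  set G : Matrix σ σ ℂ := Matrix.of fun k i => v i * Gm b A k i with hG
  refine ⟨G, ?_, ?_, ?_⟩
  · intro k i hki
    simp only [hG, Matrix.of_apply, hv, Gm]
    cases hb : b i with
    | none => simp
    | some j =>
      simp only
      have : b k = some j := by
        by_contra h
        apply hki
        rw [hb]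
        exact ⟨by simp, h⟩
      rw [if_pos this]
      split_ifs with h
      · exact inv_mul_cancel₀ (hdB j)
      · simp
  · have : G.det = (∏ i, v i) * (Gm b A).det := by
      rw [hG]
      exact Matrix.det_mul_row v (Gm b A)
    rw [this]
    exact mul_ne_zero (Finset.prod_ne_zero_iff.mpr fun i _ => hv0 i) hdG
  · intro μ hμ
    unfold Tsum
    rw [map_sum, coeff_sum]
    refine Finset.sum_eq_zero fun j _ => ?_
    obtain ⟨i, hi, hμi⟩ := hμ j
    have hsup : sub G (aeval (fun l => if b l = some j then 0 else ∑ k, C (A j k l) * X k) (Q j)) ∈
        supported ℂ {i | b i ≠ some j} := by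
      have h1 : sub G (aeval (fun l => if b l = some j then 0
          else ∑ k, C (A j k l) * (X k : MvPolynomial σ ℂ)) (Q j)) =
          aeval (fun l => sub G (if b l = some j then 0 else ∑ k, C (A j k l) * X k)) (Q j) := by
        rw [← AlgHom.comp_apply]
        congr 1
        apply MvPolynomial.algHom_ext
        intro k
        simp
      rw [h1]
      have h2 : ∀ l, sub G (if b l = some j then 0
          else ∑ k, C (A j k l) * (X k : MvPolynomial σ ℂ)) ∈
          supported ℂ {i | b i ≠ some j} := by
        intro l
        split_ifs with hl
        · rw [map_zero]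
          exact Subalgebra.zero_mem _
        · have h3 : sub G (∑ k, C (A j k l) * (X k : MvPolynomial σ ℂ)) =
              ∑ i, C (∑ k, A j k l * G k i) * X i := by
            rw [map_sum]
            have h4 : ∀ k, sub G (C (A j k l) * (X k : MvPolynomial σ ℂ)) =
                ∑ i, C (A j k l * G k i) * X i := by
              intro k
              rw [map_mul, algHom_C, algebraMap_eq]
              unfold sub
              rw [aeval_X, Finset.mul_sum]
              refine Finset.sum_congr rfl fun i _ => ?_
              rw [C_mul, mul_assoc]
            rw [Finset.sum_congr rfl fun k _ => h4 k, Finset.sum_comm]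
            refine Finset.sum_congr rfl fun i _ => ?_
            rw [← Finset.sum_mul, ← map_sum]
          rw [h3]
          refine Subalgebra.sum_mem _ fun i' _ => ?_
          by_cases hi' : b i' = some j
          · have h5 : ∑ k, A j k l * G k i' = 0 := by
              have h6 := Gm_orth b A j i' l hi' hl
              have h7 : ∀ k, A j k l * G k i' = v i' * (A j k l * Gm b A k i') := by
                intro k
                simp only [hG, Matrix.of_apply]
                ring
              rw [Finset.sum_congr rfl fun k _ => h7 k, ← Finset.mul_sum, h6, mul_zero]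
            rw [h5, C_0, zero_mul]
            exact Subalgebra.zero_mem _
          · refine Subalgebra.mul_mem _ ?_ ?_
            · exact Subalgebra.algebraMap_mem _ _
            · exact X_mem_supported.mpr hi'
      have h8 : ∀ P : MvPolynomial σ ℂ, aeval (fun l => sub G (if b l = some j then 0
          else ∑ k, C (A j k l) * (X k : MvPolynomial σ ℂ))) P ∈
          supported ℂ {i | b i ≠ some j} := by
        intro P
        induction P using MvPolynomial.induction_on with
        | C a =>
          rw [aeval_C]
          exact Subalgebra.algebraMap_mem _ _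
        | add P Q hP hQ =>
          rw [map_add]
          exact Subalgebra.add_mem _ hP hQ
        | mul_X P i hP =>
          rw [map_mul, aeval_X]
          exact Subalgebra.mul_mem _ hP (h2 i)
      exact h8 (Q j)
    by_contra hne
    rw [mem_supported] at hsup
    have hiv : i ∈ (sub G (aeval (fun l => if b l = some j then 0
        else ∑ k, C (A j k l) * (X k : MvPolynomial σ ℂ)) (Q j))).vars := by
      rw [mem_vars]
      exact ⟨μ, mem_support_iff.mpr hne, Finsupp.mem_support_iff.mpr hμi⟩
    exact hsup (Finset.mem_coe.mpr hiv) hi

end Pool.Agent.H42.GR
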