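import Pool.Agent.H42.GR.Lower2

/-!
Third part of the lower bound: the final statement.
-/

namespace Pool.Agent.H42.GR

open MvPolynomial

variable {σ : Type} [Fintype σ] [DecidableEq σ]

/-- The form with given coefficients. -/
noncomputable def formOf (n : ℕ) (y : ↥(mons σ n) → ℂ) : MvPolynomial σ ℂ :=
  ∑ μ, monomial μ.1 (y μ)

theorem formOf_isHomogeneous (n : ℕ) (y : ↥(mons σ n) → ℂ) : (formOf n y).IsHomogeneous n := by
  unfold formOf
  apply IsHomogeneous.sum
  intro μ _
  apply isHomogeneous_monomial
  exact mem_mons.mp μ.2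

theorem coeff_formOf (n : ℕ) (y : ↥(mons σ n) → ℂ) (μ : σ →₀ ℕ) :
    coeff μ (formOf n y) = if h : μ ∈ mons σ n then y ⟨μ, h⟩ else 0 := by
  unfold formOf
  rw [coeff_sum]
  simp only [coeff_monomial]
  split_ifs with h
  · rw [Finset.sum_eq_single ⟨μ, h⟩]
    · simp
    · intro ν _ hν
      rw [if_neg]
      intro h'
      apply hν
      exact Subtype.ext h'
    · simp
  · refine Finset.sum_eq_zero fun ν _ => ?_
    rw [if_neg]
    intro h'
    exact h (h' ▸ ν.2)

theorem formOf_coeff {n : ℕ} {T : MvPolynomial σ ℂ} (hT : T.IsHomogeneous n) :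
    formOf n (fun μ : ↥(mons σ n) => coeff μ.1 T) = T := by
  ext μ
  rw [coeff_formOf]
  split_ifs with h
  · rfl
  · symm
    by_contra hne
    apply h
    rw [mem_mons, Finsupp.degree_eq_weight_one]
    exact hT hne

/-- The translation between polynomials in all coefficients and polynomials in the coefficients
of degree `n`. -/
noncomputable def restr (n : ℕ) (P : MvPolynomial (σ →₀ ℕ) ℂ) : MvPolynomial ↥(mons σ n) ℂ := by
  classical
  exact aeval (fun μ => if h : μ ∈ mons σ n then X ⟨μ, h⟩ else 0) P

theorem eval_restr (n : ℕ) (P : MvPolynomial (σ →₀ ℕ) ℂ) (y : ↥(mons σ n) → ℂ) :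
    eval y (restr n P) = eval (fun μ => coeff μ (formOf n y)) P := by
  classical
  unfold restr
  induction P using MvPolynomial.induction_on with
  | C a => simp [algebraMap_eq]
  | add P Q hP hQ => rw [map_add, map_add, hP, hQ, map_add]
  | mul_X P i hP =>
    rw [map_mul, map_mul, hP, map_mul, aeval_X, eval_X, coeff_formOf]
    congr 1
    split_ifs <;> simp

theorem eval_aeval {I B : Type} (Ψ : I → MvPolynomial B ℂ) (P : MvPolynomial I ℂ) (y : B → ℂ) :
    eval y (aeval Ψ P) = eval (fun i => eval y (Ψ i)) P := by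
  induction P using MvPolynomial.induction_on with
  | C a => simp
  | add P Q hP hQ => rw [map_add, map_add, hP, hQ, map_add]
  | mul_X P i hP => rw [map_mul, map_mul, hP, map_mul, aeval_X, eval_X]

theorem Tsum_map {S S' : Type} [CommRing S] [CommRing S'] {s : ℕ} (f : S →+* S')
    (b : σ → Option (Fin s)) (A : Fin s → σ → σ → S) (Q : Fin s → MvPolynomial σ S) :
    map f (Tsum b A Q) = Tsum b (fun j k l => f (A j k l)) (fun j => map f (Q j)) := by
  unfold Tsum
  rw [map_sum]
  refine Finset.sum_congr rfl fun j _ => ?_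
  change map f (aeval _ (Q j)) = aeval _ (map f (Q j))
  generalize Q j = q
  induction q using MvPolynomial.induction_on with
  | C a => simp
  | add P Q hP hQ => rw [map_add, map_add, hP, hQ, map_add, map_add]
  | mul_X P i hP =>
    rw [map_mul, map_mul, hP, map_mul, map_mul, aeval_X, map_X, aeval_X]
    congr 1
    split_ifs
    · simp
    · rw [map_sum]
      refine Finset.sum_congr rfl fun k _ => ?_
      rw [map_mul, map_C, map_X]

omit [Fintype σ] [DecidableEq σ] in
theorem exists_single_of_degree_one {μ : σ →₀ ℕ} (h : μ.degree = 1) :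
    ∃ i, Finsupp.single i 1 = μ := by
  have : μ ∈ Set.range (fun a : σ ↦ Finsupp.single a 1) := by
    rw [Finsupp.range_single_one]
    exact h
  exact this

theorem aeval_lin_isHomogeneous {n : ℕ} (v : σ → MvPolynomial σ ℂ)
    (hv : ∀ l, (v l).IsHomogeneous 1) {Q : MvPolynomial σ ℂ} (hQ : Q.IsHomogeneous n) :
    (aeval v Q).IsHomogeneous n := by
  rw [eq_sum_mons hQ, map_sum]
  apply IsHomogeneous.sum
  intro μ hμ
  rw [map_mul, map_prod, aeval_C]
  have h1 : (algebraMap ℂ (MvPolynomial σ ℂ) (coeff μ Q)).IsHomogeneous 0 := by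
    rw [algebraMap_eq]
    exact isHomogeneous_C _ _
  have h2 : (∏ i, aeval v (X i ^ μ i : MvPolynomial σ ℂ)).IsHomogeneous (∑ i, μ i) := by
    apply IsHomogeneous.prod
    intro i _
    rw [map_pow, aeval_X]
    simpa using (hv i).pow (μ i)
  have h3 := h1.mul h2
  rw [mem_mons, Finsupp.degree_eq_sum] at hμ
  rw [zero_add, hμ] at h3
  exact h3

theorem Tsum_isHomogeneous {s n : ℕ} (b : σ → Option (Fin s)) (A : Fin s → σ → σ → ℂ)
    (Q : Fin s → MvPolynomial σ ℂ) (hQ : ∀ j, (Q j).IsHomogeneous n) :
    (Tsum b A Q).IsHomogeneous n := by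
  unfold Tsum
  apply IsHomogeneous.sum
  intro j _
  apply aeval_lin_isHomogeneous _ _ (hQ j)
  intro l
  split_ifs
  · exact isHomogeneous_zero _ _ _
  · apply IsHomogeneous.sum
    intro k _
    have := (isHomogeneous_C σ (A j k l)).mul (isHomogeneous_X ℂ k)
    simpa using this

/-- The elements of `Sub_r` in parametrised form. -/
theorem param_of_inSub {s n r : ℕ} (b : σ → Option (Fin s)) (j : Fin s)
    (hb : Fintype.card {l : σ // b l ≠ some j} = r) {T : MvPolynomial σ ℂ}
    (hT : InSub σ n r T) :
    ∃ (A : σ → σ → ℂ) (Q : MvPolynomial σ ℂ), Q.IsHomogeneous n ∧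
      T = aeval (fun l => if b l = some j then 0 else ∑ k, C (A k l) * X k) Q := by
  classical
  obtain ⟨V', hV1, hVr, hTV⟩ := hT
  have hfin : FiniteDimensional ℂ V' := by
    have : FiniteDimensional ℂ (homogeneousSubmodule σ ℂ 1) := by
      have hle : homogeneousSubmodule σ ℂ 1 ≤ Submodule.span ℂ (Set.range (X : σ → _)) := by
        intro p hp
        have hp' : p.IsHomogeneous 1 := hp
        rw [eq_sum_mons hp']
        refine Submodule.sum_mem _ fun μ hμ => ?_
        rw [mem_mons] at hμ
        rw [← smul_eq_C_mul]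
        apply Submodule.smul_mem
        obtain ⟨i, hi⟩ := exists_single_of_degree_one hμ
        rw [← hi, Finset.prod_eq_single i]
        · rw [Finsupp.single_eq_same, pow_one]
          exact Submodule.subset_span ⟨i, rfl⟩
        · intro k _ hk
          rw [Finsupp.single_eq_of_ne hk, pow_zero]
        · simp
      have : FiniteDimensional ℂ (Submodule.span ℂ (Set.range (X : σ → MvPolynomial σ ℂ))) :=
        FiniteDimensional.span_of_finite ℂ (Set.finite_range _)
      exact Submodule.finiteDimensional_of_le hle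
    exact Submodule.finiteDimensional_of_le hV1
  -- a basis indexed by the complement of the block
  have e : Fin (Module.finrank ℂ V') ≃ {l : σ // b l ≠ some j} :=
    (finCongr (hVr.trans hb.symm)).trans (Fintype.equivFin _).symm
  set B := (Module.finBasis ℂ V').reindex e with hB
  set v : σ → MvPolynomial σ ℂ := fun l => if h : b l = some j then 0 else (B ⟨l, h⟩ : V').1 with hv
  have hv1 : ∀ l, (v l).IsHomogeneous 1 := by
    intro l
    simp only [hv]
    split_ifs with h
    · exact isHomogeneous_zero _ _ _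
    · exact hV1 (B ⟨l, h⟩).2
  have hspan : V' ≤ Submodule.span ℂ (Set.range v) := by
    intro x hx
    have h1 : (⟨x, hx⟩ : V') = ∑ l, B.repr ⟨x, hx⟩ l • B l := (B.sum_repr _).symm
    have h2 : x = ∑ l, B.repr ⟨x, hx⟩ l • (B l : V').1 := by
      have := congrArg (V'.subtype) h1
      rw [map_sum] at this
      exact this
    rw [h2]
    refine Submodule.sum_mem _ fun l _ => Submodule.smul_mem _ _ (Submodule.subset_span ?_)
    refine ⟨l.1, ?_⟩
    simp only [hv]
    rw [dif_neg l.2]
  have hpow : V' ^ n ≤ Submodule.map (aeval v : MvPolynomial σ ℂ →ₐ[ℂ] MvPolynomial σ ℂ).toLinearMap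
      (homogeneousSubmodule σ ℂ n) := by
    have h1 : V' ≤ Submodule.map (aeval v : MvPolynomial σ ℂ →ₐ[ℂ] MvPolynomial σ ℂ).toLinearMap
        (homogeneousSubmodule σ ℂ 1) := by
      refine hspan.trans ?_
      rw [Submodule.span_le]
      rintro _ ⟨l, rfl⟩
      refine ⟨X l, isHomogeneous_X _ _, ?_⟩
      simp
    have h2 : V' ^ n ≤ (Submodule.map (aeval v : MvPolynomial σ ℂ →ₐ[ℂ]
        MvPolynomial σ ℂ).toLinearMap (homogeneousSubmodule σ ℂ 1)) ^ n := by
      exact pow_le_pow_left' h1 n
    refine h2.trans ?_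
    rw [← Submodule.map_pow]
    apply Submodule.map_mono
    have h3 : ∀ N : ℕ, (homogeneousSubmodule σ ℂ 1) ^ N ≤ homogeneousSubmodule σ ℂ N := by
      intro N
      induction N with
      | zero =>
        rw [pow_zero, Submodule.one_le]
        exact isHomogeneous_one _ _
      | succ N ih =>
        rw [pow_succ]
        exact (mul_le_mul' ih le_rfl).trans (homogeneousSubmodule_mul N 1)
    exact h3 n
  obtain ⟨Q, hQ, hQT⟩ := hpow hTV
  refine ⟨fun k l => coeff (Finsupp.single k 1) (v l), Q, hQ, ?_⟩
  have hvl : (fun l => if b l = some j then 0 else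
      ∑ k, C (coeff (Finsupp.single k 1) (v l)) * (X k : MvPolynomial σ ℂ)) = v := by
    funext l
    split_ifs with h
    · simp only [hv]
      rw [dif_pos h]
    · ext μ
      rw [coeff_sum]
      simp only [coeff_C_mul, coeff_X]
      by_cases hμ : ∃ k, Finsupp.single k 1 = μ
      · obtain ⟨k, rfl⟩ := hμ
        rw [Finset.sum_eq_single k]
        · simp
        · intro k' _ hk'
          rw [if_neg]
          · simp
          · intro h'
            apply hk'
            exact Finsupp.single_left_injective one_ne_zero h'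
        · simp
      · rw [Finset.sum_eq_zero]
        · symm
          by_contra hne
          apply hμ
          have := (hv1 l) hne
          have h2 : μ.degree = 1 := by
            rw [Finsupp.degree_eq_weight_one]
            exact this
          exact exists_single_of_degree_one h2
        · intro k _
          rw [if_neg]
          · simp
          · intro h'
            exact hμ ⟨k, h'⟩
  rw [hvl]
  exact hQT.symm

theorem not_containsOpen {s n r : ℕ} (b : σ → Option (Fin s))
    (hb : ∀ j, Fintype.card {l : σ // b l ≠ some j} = r)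
    (hcount : Fintype.card (Par σ n b) < (mons σ n).card) :
    ¬ ContainsOpen σ n {T | RankLE σ n r s T} := by
  classical
  have hcount' : Fintype.card (Par σ n b) < Fintype.card ↥(mons σ n) := by
    rwa [Fintype.card_coe]
  obtain ⟨P, hP0, hP⟩ := exists_relation hcount' (fun μ => coeff μ.1 (Tgen n b))
  -- vanishing for generic subspaces
  have van1 : ∀ (A : Fin s → σ → σ → ℂ) (Q : Fin s → MvPolynomial σ ℂ),
      (∀ j, (Q j).IsHomogeneous n) → hpoly b A ≠ 0 →
      eval (fun μ : ↥(mons σ n) => coeff μ.1 (Tsum b A Q)) P = 0 := by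
    intro A Q hQ hA
    obtain ⟨G, hG, hdet, hmiss⟩ := claimB b A hA Q
    obtain ⟨y, hy⟩ := claimA b G hG hdet (Tsum b A Q) (Tsum_isHomogeneous b A Q hQ) hmiss
    have h1 : (fun μ : ↥(mons σ n) => coeff μ.1 (Tsum b A Q)) =
        fun μ : ↥(mons σ n) => eval y (coeff μ.1 (Tgen n b)) := by
      funext μ
      rw [hy]
    rw [h1, ← eval_aeval, hP, map_zero]
  -- vanishing for all subspaces
  have van2 : ∀ (A : Fin s → σ → σ → ℂ) (Q : Fin s → MvPolynomial σ ℂ),
      (∀ j, (Q j).IsHomogeneous n) →
      eval (fun μ : ↥(mons σ n) => coeff μ.1 (Tsum b A Q)) P = 0 := by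
    intro A Q hQ
    set Ag : Fin s → σ → σ → MvPolynomial (Fin s × σ × σ) ℂ := fun j k l => X (j, k, l) with hAg
    set F : MvPolynomial (Fin s × σ × σ) ℂ :=
      aeval (fun μ : ↥(mons σ n) => coeff μ.1 (Tsum b Ag (fun j => map C (Q j)))) P with hF
    have hFe : ∀ A' : Fin s × σ × σ → ℂ, eval A' F =
        eval (fun μ : ↥(mons σ n) => coeff μ.1 (Tsum b (fun j k l => A' (j, k, l)) Q)) P := by
      intro A'
      rw [hF, eval_aeval]
      congr 2
      funext μ
      rw [← coeff_map, Tsum_map]
      congr 2
      · funext j k l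
        simp [hAg]
      · funext j
        rw [map_map]
        have : (eval A').comp (C : ℂ →+* MvPolynomial (Fin s × σ × σ) ℂ) = RingHom.id ℂ := by
          ext x <;> simp
        rw [this, map_id]
    have hhe : ∀ A' : Fin s × σ × σ → ℂ, eval A' (hpoly b Ag) =
        hpoly b (fun j k l => A' (j, k, l)) := by
      intro A'
      rw [hpoly_map]
      congr 1
      funext j k l
      simp [hAg]
    have hh0 : hpoly b Ag ≠ 0 := by
      intro h0
      have h1 := hhe (fun p => if p.2.1 = p.2.2 then 1 else 0)
      rw [h0, map_zero] at h1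
      have h2 := hpoly_one (S := ℂ) b
      simp only at h1
      rw [h2] at h1
      exact zero_ne_one h1
    have hprod : F * hpoly b Ag = 0 := by
      apply MvPolynomial.funext
      intro A'
      rw [map_mul, map_zero, hhe, hFe]
      by_cases hA' : hpoly b (fun j k l => A' (j, k, l)) = 0
      · rw [hA', mul_zero]
      · rw [van1 _ Q hQ hA', zero_mul]
    have hF0 : F = 0 := (mul_eq_zero.mp hprod).resolve_right hh0
    have h3 := hFe (fun p => A p.1 p.2.1 p.2.2)
    rw [hF0, map_zero] at h3
    exact h3.symm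
  -- vanishing on the set of tensors of rank at most `s`
  have van3 : ∀ T : MvPolynomial σ ℂ, RankLE σ n r s T →
      eval (fun μ : ↥(mons σ n) => coeff μ.1 T) P = 0 := by
    rintro T ⟨t, ht, rfl⟩
    have := fun j => param_of_inSub b j (hb j) (ht j)
    choose A Q hQ hAQ using this
    have h1 : ∑ j, t j = Tsum b A Q := by
      unfold Tsum
      exact Finset.sum_congr rfl fun j _ => hAQ j
    rw [h1]
    exact van2 A Q hQ
  rintro ⟨P', ⟨T₀, hT₀, hP'T₀⟩, hP'⟩
  have hprod : restr n P' * P = 0 := by
    apply MvPolynomial.funext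
    intro y
    rw [map_mul, map_zero, eval_restr]
    by_cases h : eval (fun μ => coeff μ (formOf n y)) P' = 0
    · rw [h, zero_mul]
    · have h1 := van3 _ (hP' _ (formOf_isHomogeneous n y) h)
      have h2 : (fun μ : ↥(mons σ n) => coeff μ.1 (formOf n y)) = y := by
        funext μ
        rw [coeff_formOf, dif_pos μ.2]
      rw [h2] at h1
      rw [h1, mul_zero]
  have h0 : restr n P' = 0 := (mul_eq_zero.mp hprod).resolve_right hP0
  apply hP'T₀
  have h1 := eval_restr n P' (fun μ : ↥(mons σ n) => coeff μ.1 T₀)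
  rw [h0, map_zero, formOf_coeff hT₀] at h1
  exact h1.symm

end Pool.Agent.H42.GR
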