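import Pool.Agent.H42.GR.Comb

/-!
Existence of the combinatorial data and the main theorem.
-/

namespace Pool.Agent.H42.GR

open MvPolynomial

variable {σ : Type} [Fintype σ] [DecidableEq σ]

theorem card_P {N c : ℕ} (hc : 0 < c) (j : Fin (N + 1)) (hj : j ≠ 0) :
    (Finset.univ.filter (fun ψ : Fin (N + 1) → Fin c => ψ 0 = ⟨0, hc⟩ ∧ ψ j = ⟨0, hc⟩)).card =
      c ^ (N - 1) := by
  classical
  have h1 : Finset.univ.filter (fun ψ : Fin (N + 1) → Fin c => ψ 0 = ⟨0, hc⟩ ∧ ψ j = ⟨0, hc⟩) =
      Fintype.piFinset (fun i : Fin (N + 1) =>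
        if i = 0 ∨ i = j then ({⟨0, hc⟩} : Finset (Fin c)) else Finset.univ) := by
    ext ψ
    rw [Finset.mem_filter, Fintype.mem_piFinset]
    constructor
    · rintro ⟨_, h0, hj'⟩ i
      split_ifs with hi
      · rw [Finset.mem_singleton]
        rcases hi with rfl | rfl
        · exact h0
        · exact hj'
      · exact Finset.mem_univ _
    · intro h
      refine ⟨Finset.mem_univ _, ?_, ?_⟩
      · have := h 0
        rw [if_pos (Or.inl rfl), Finset.mem_singleton] at this
        exact this
      · have := h j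
        rw [if_pos (Or.inr rfl), Finset.mem_singleton] at this
        exact this
  rw [h1, Fintype.card_piFinset]
  have h2 : ∀ i : Fin (N + 1), (if i = 0 ∨ i = j then ({⟨0, hc⟩} : Finset (Fin c))
      else Finset.univ).card = if i = 0 ∨ i = j then 1 else c := by
    intro i
    split_ifs
    · exact Finset.card_singleton _
    · rw [Finset.card_univ, Fintype.card_fin]
  rw [Finset.prod_congr rfl fun i _ => h2 i, Finset.prod_ite, Finset.prod_const_one, one_mul,
    Finset.prod_const]
  congr 1
  have h3 : Finset.univ.filter (fun i : Fin (N + 1) => ¬ (i = 0 ∨ i = j)) =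
      Finset.univ \ {0, j} := by
    ext i
    simp
  rw [h3, Finset.card_sdiff_of_subset (Finset.subset_univ _), Finset.card_univ, Fintype.card_fin,
    Finset.card_pair (Ne.symm hj)]
  omega

/-- The choice of directions. -/
theorem exists_lev {N c k : ℕ} (hN : 1 ≤ N) (hk : 1 ≤ k) (hkc : c ≤ N * k) :
    ∃ lev : Fin c → Fin (N + 1), (∀ x, lev x ≠ 0) ∧
      ∀ j, (Finset.univ.filter (fun x => lev x = j)).card ≤ k := by
  classical
  have hlt : ∀ x : Fin c, x.1 / k + 1 < N + 1 := by
    intro x
    have : x.1 / k < N := by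
      rw [Nat.div_lt_iff_lt_mul hk]
      exact lt_of_lt_of_le x.2 hkc
    omega
  refine ⟨fun x => ⟨x.1 / k + 1, hlt x⟩, fun x h => ?_, fun j => ?_⟩
  · have := Fin.ext_iff.mp h
    simp at this
  · have hinj : Set.InjOn (fun x : Fin c => x.1 % k)
        ((Finset.univ.filter (fun x : Fin c => (⟨x.1 / k + 1, hlt x⟩ : Fin (N + 1)) = j) :
          Finset (Fin c)) : Set (Fin c)) := by
      intro x hx y hy hxy
      rw [Finset.mem_coe, Finset.mem_filter] at hx hy
      have h1 := hx.2.trans hy.2.symm
      have h2 := Fin.ext_iff.mp h1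
      simp only at h2 hxy
      have h3 : x.1 / k = y.1 / k := by omega
      apply Fin.ext
      rw [← Nat.div_add_mod x.1 k, ← Nat.div_add_mod y.1 k, h3, hxy]
    have h4 := Finset.card_le_card_of_injOn (t := Finset.range k)
      (fun x : Fin c => x.1 % k) (fun x _ => by
        rw [Finset.mem_coe, Finset.mem_range]
        exact Nat.mod_lt _ hk) hinj
    rwa [Finset.card_range] at h4

/-- The generic rank is at most `n` if there are enough free variables. -/
theorem containsOpen_n {N c k a f : ℕ} (hN : 1 ≤ N) (hc : 0 < c) (hk : 1 ≤ k) (hkc : c ≤ N * k)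
    (hm : (N + 1) * c + f ≤ Fintype.card σ) (haf : k * a ≤ f) (ha : a ≤ c ^ (N - 1))
    (hbad : c * (c ^ (N - 1) - a) ≤ f) :
    ContainsOpen σ (N + 1) {T | RankLE σ (N + 1) (Fintype.card σ - c) (N + 1) T} := by
  classical
  obtain ⟨e⟩ := exists_emb (σ := σ) (s := N + 1) (c := c) (by omega)
  set z0 : Fin c := ⟨0, hc⟩ with hz0
  obtain ⟨lev, hlev, hlevk⟩ := exists_lev (N := N) (c := c) (k := k) hN hk hkc
  -- the free variables
  set F : Finset σ := Finset.univ.filter (fun z => blk e z = none) with hF
  have hFf : f ≤ F.card := by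
    have h1 : F = Finset.univ \ Finset.univ.map e := by
      ext z
      rw [hF, Finset.mem_filter, Finset.mem_sdiff, Finset.mem_map]
      constructor
      · rintro ⟨_, hz⟩
        refine ⟨Finset.mem_univ _, ?_⟩
        rintro ⟨⟨j, x⟩, _, rfl⟩
        rw [blk_e] at hz
        exact Option.some_ne_none _ hz
      · rintro ⟨_, hz⟩
        refine ⟨Finset.mem_univ _, ?_⟩
        by_contra h
        obtain ⟨j, hj⟩ := Option.ne_none_iff_exists'.mp h
        obtain ⟨x, hx⟩ := (blk_eq_some e).mp hj
        exact hz ⟨(j, x), Finset.mem_univ _, hx⟩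
    rw [h1, Finset.card_sdiff_of_subset (Finset.subset_univ _), Finset.card_map,
      Finset.card_univ, Finset.card_univ, Fintype.card_prod, Fintype.card_fin, Fintype.card_fin]
    omega
  -- the sets of lines
  have hS : ∀ j : Fin (N + 1), ∃ Sj : Finset (Fin (N + 1) → Fin c), j ≠ 0 →
      (Sj ⊆ Finset.univ.filter (fun ψ : Fin (N + 1) → Fin c => ψ 0 = z0 ∧ ψ j = z0) ∧
        Sj.card = a) := by
    intro j
    by_cases hj : j = 0
    · exact ⟨∅, fun h => absurd hj h⟩
    · have h1 := card_P (N := N) hc j hj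
      obtain ⟨Sj, h2, h3⟩ := Finset.exists_subset_card_eq (n := a)
        (s := Finset.univ.filter (fun ψ : Fin (N + 1) → Fin c => ψ 0 = z0 ∧ ψ j = z0))
        (by rw [h1]; exact ha)
      exact ⟨Sj, fun _ => ⟨h2, h3⟩⟩
  choose S hS using hS
  -- the elements assigned to the lines
  set A : Fin (N + 1) → Finset (Fin (N + 1) → Fin c) := fun j =>
    Finset.univ.filter (fun ψ => ψ j = z0 ∧ lev (ψ 0) = j ∧ Function.update ψ 0 z0 ∈ S j) with hA
  have hAf : ∀ j ≠ 0, (A j).card ≤ F.card := by
    intro j hj
    refine le_trans ?_ hFf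
    refine le_trans ?_ haf
    have h1 : (A j).card ≤ ((Finset.univ.filter (fun x => lev x = j)) ×ˢ S j).card := by
      refine Finset.card_le_card_of_injOn
        (fun ψ => (ψ 0, Function.update ψ 0 z0)) ?_ ?_
      · intro ψ hψ
        rw [Finset.mem_coe, hA, Finset.mem_filter] at hψ
        rw [Finset.mem_coe, Finset.mem_product, Finset.mem_filter]
        exact ⟨⟨Finset.mem_univ _, hψ.2.2.1⟩, hψ.2.2.2⟩
      · intro ψ _ ψ' _ h
        rw [Prod.mk.injEq] at h
        have h2 : Function.update (Function.update ψ 0 z0) 0 (ψ 0) =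
            Function.update (Function.update ψ' 0 z0) 0 (ψ' 0) := by
          rw [h.2, h.1]
        rwa [Function.update_idem, Function.update_idem, Function.update_eq_self,
          Function.update_eq_self] at h2
    refine h1.trans ?_
    rw [Finset.card_product, (hS j hj).2]
    exact Nat.mul_le_mul_right _ (hlevk j)
  have hg : ∀ j : Fin (N + 1), ∃ g : (Fin (N + 1) → Fin c) → σ, j ≠ 0 →
      (∀ ψ ∈ A j, g ψ ∈ F) ∧ Set.InjOn g (A j : Set (Fin (N + 1) → Fin c)) := by
    intro j
    by_cases hj : j = 0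
    · exact ⟨fun _ => e (0, z0), fun h => absurd hj h⟩
    · have h1 := hAf j hj
      have h2 : Fintype.card ↥(A j) ≤ Fintype.card ↥F := by
        rwa [Fintype.card_coe, Fintype.card_coe]
      obtain ⟨ι⟩ := Function.Embedding.nonempty_of_card_le h2
      refine ⟨fun ψ => if h : ψ ∈ A j then (ι ⟨ψ, h⟩).1 else e (0, z0), fun _ => ⟨?_, ?_⟩⟩
      · intro ψ hψ
        simp only [dif_pos hψ]
        exact (ι ⟨ψ, hψ⟩).2
      · intro ψ hψ ψ' hψ' h
        rw [Finset.mem_coe] at hψ hψ'
        simp only [dif_pos hψ, dif_pos hψ'] at h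
        have := ι.injective (Subtype.ext h)
        exact congrArg Subtype.val this
  choose g hg using hg
  -- numbering of the free variables
  obtain ⟨num, hnum⟩ : ∃ num : σ → ℕ, ∀ b < f, ∃ z ∈ F, num z = b := by
    refine ⟨fun z => if h : z ∈ F then (F.equivFin ⟨z, h⟩).1 else 0, fun b hb => ?_⟩
    refine ⟨(F.equivFin.symm ⟨b, lt_of_lt_of_le hb hFf⟩).1,
      (F.equivFin.symm ⟨b, lt_of_lt_of_le hb hFf⟩).2, ?_⟩
    simp
  -- the injection into the complex numbers
  obtain ⟨t, ht⟩ : ∃ t : (Fin (N + 1) → Fin c) → ℂ, Function.Injective t := by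
    refine ⟨fun ψ => ((Fintype.equivFin _ ψ : Fin _).1 : ℂ), fun ψ ψ' h => ?_⟩
    have h1 : (Fintype.equivFin _ ψ : Fin _).1 = (Fintype.equivFin _ ψ' : Fin _).1 := by
      simp only at h
      exact_mod_cast h
    exact (Fintype.equivFin _).injective (Fin.ext h1)
  set w : Fin (N + 1) → σ → MvPolynomial σ ℂ := fun j z =>
    if j = 0 then ∑ ψ ∈ Finset.univ.filter (fun ψ : Fin (N + 1) → Fin c => ψ 0 = z0),
        C (t ψ ^ num z) * pc e 0 ψ
    else ∑ ψ ∈ (A j).filter (fun ψ => g j ψ = z), pc e j ψ with hw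
  have hwo : ∀ j z, OtherBlocks (blk e) j (w j z) := by
    intro j z
    simp only [hw]
    split_ifs with hj
    · subst hj
      refine Subalgebra.sum_mem _ fun ψ _ => Subalgebra.mul_mem _ ?_ (pc_otherBlocks e 0 ψ)
      exact Subalgebra.algebraMap_mem _ _
    · exact Subalgebra.sum_mem _ fun ψ _ => pc_otherBlocks e j ψ
  have hwh : ∀ j z, (w j z).IsHomogeneous N := by
    intro j z
    simp only [hw]
    split_ifs with hj
    · apply IsHomogeneous.sum
      intro ψ _
      have := (isHomogeneous_C σ (t ψ ^ num z)).mul (pc_isHomogeneous e 0 ψ)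
      rwa [zero_add] at this
    · apply IsHomogeneous.sum
      intro ψ _
      exact pc_isHomogeneous e j ψ
  refine containsOpen_of_dir (blk e) (fun j => (card_compl_blk e j).le) (Nat.sub_le _ _)
    (basePt (fun j => ∑ z, (if blk e z = none then X z * w j z else 0)) :
      PB σ (N + 1) (N + 1) → ℂ) ?_
  intro μ hμ
  by_cases hmeet : Meets (blk e) μ
  · obtain ⟨φ, rfl⟩ := eq_base_of_meets e hμ hmeet
    rw [monomial_base]
    refine cells_mem (f := f) hc e _ F w ?_ t ht ?_ lev hlev S ?_ ?_ φ
    · intro j z hz k₀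
      rw [hF, Finset.mem_filter] at hz
      exact mem_Dir_tan (blk e) w hwo hwh j z k₀ hz.2
    · intro b hb
      obtain ⟨z, hz, hzb⟩ := hnum b hb
      refine ⟨z, hz, ?_⟩
      have h0 : w 0 z = ∑ ψ ∈ Finset.univ.filter (fun ψ : Fin (N + 1) → Fin c => ψ 0 = z0),
          C (t ψ ^ num z) * pc e 0 ψ := by
        simp only [hw]
        rw [if_pos trivial]
      rw [h0, hzb]
    · intro j hj ψ hψj hψl hψS
      have hψA : ψ ∈ A j := by
        simp only [hA]
        rw [Finset.mem_filter]
        exact ⟨Finset.mem_univ _, hψj, hψl, hψS⟩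
      refine ⟨g j ψ, (hg j hj).1 ψ hψA, ?_⟩
      simp only [hw]
      rw [if_neg hj]
      rw [Finset.sum_eq_single ψ]
      · intro ψ' hψ' hne
        exfalso
        rw [Finset.mem_filter] at hψ'
        exact hne ((hg j hj).2 (Finset.mem_coe.mpr hψ'.1) (Finset.mem_coe.mpr hψA) hψ'.2)
      · intro h
        exfalso
        apply h
        rw [Finset.mem_filter]
        exact ⟨hψA, rfl⟩
    · intro x
      set j := lev x with hj
      have hj0 : j ≠ 0 := hlev x
      refine le_trans ?_ hbad
      have h1 : (Finset.univ.filter (fun ψ : Fin (N + 1) → Fin c => ψ 0 = z0 ∧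
          Function.update ψ j z0 ∉ S j)).card ≤
          ((Finset.univ : Finset (Fin c)) ×ˢ
            ((Finset.univ.filter (fun ψ : Fin (N + 1) → Fin c => ψ 0 = z0 ∧ ψ j = z0)) \
              S j)).card := by
        refine Finset.card_le_card_of_injOn (fun ψ => (ψ j, Function.update ψ j z0)) ?_ ?_
        · intro ψ hψ
          rw [Finset.mem_coe, Finset.mem_filter] at hψ
          rw [Finset.mem_coe, Finset.mem_product, Finset.mem_sdiff, Finset.mem_filter]
          refine ⟨Finset.mem_univ _, ⟨Finset.mem_univ _, ?_, ?_⟩, hψ.2.2⟩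
          · change Function.update ψ j z0 0 = z0
            rw [Function.update_of_ne (Ne.symm hj0)]
            exact hψ.2.1
          · change Function.update ψ j z0 j = z0
            rw [Function.update_self]
        · intro ψ _ ψ' _ h
          rw [Prod.mk.injEq] at h
          have h2 : Function.update (Function.update ψ j z0) j (ψ j) =
              Function.update (Function.update ψ' j z0) j (ψ' j) := by
            rw [h.2, h.1]
          rwa [Function.update_idem, Function.update_idem, Function.update_eq_self,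
            Function.update_eq_self] at h2
      refine h1.trans ?_
      rw [Finset.card_product, Finset.card_univ, Fintype.card_fin,
        Finset.card_sdiff_of_subset (hS j hj0).1, card_P hc j hj0, (hS j hj0).2]
  · unfold Meets at hmeet
    push Not at hmeet
    obtain ⟨j, hj⟩ := hmeet
    exact mem_Dir_mon (blk e) _ j μ hμ hj

end Pool.Agent.H42.GR
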